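import Pool.Agent.Lib.AM.SpecC

set_option linter.all false

/-!
# AM, C/Bc: cost of a block
-/

namespace Pool.Agent.AM.C

open Finset Pool.Agent.MP_a4c1f4_lc Pool.Agent.MP_a4c1f4_lc.Dbl

private theorem Bc_psum_le {S : Type} (f f' : S → List S → ℝ) : ∀ L : List S,
    (∀ z l, (∃ m : List S, m ++ z :: l = L) → f z l ≤ f' z l) → psum f L ≤ psum f' L
  | [], _ => le_refl _
  | x :: L, h => by
    have h1 := Bc_psum_le f f' L (fun z l hm => h z l (by
      obtain ⟨m, hm⟩ := hm
      exact ⟨x :: m, by rw [List.cons_append, hm]⟩))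
    have h2 := h x L ⟨[], rfl⟩
    simp only [psum]
    linarith

private theorem Bc_psum_congr {S : Type} (f f' : S → List S → ℝ) : ∀ L : List S,
    (∀ z ∈ L, ∀ l, f z l = f' z l) → psum f L = psum f' L
  | [], _ => rfl
  | x :: L, h => by
    have h1 := Bc_psum_congr f f' L (fun z hz l => h z (List.mem_cons_of_mem _ hz) l)
    have h2 := h x List.mem_cons_self L
    simp only [psum]
    rw [h1, h2]

/-- the bound of one step -/
private noncomputable def Bc_F {X K : Type} [Fintype X] [DecidableEq X] [Nonempty X] [Fintype K]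
    [DecidableEq K] [Nonempty K] (B : Blk X) (sg : K → X) (Lam : ℝ) (N : ℕ) (cl : X → List X)
    (G : ℕ → X → ℕ) (q : ℕ → Equiv.Perm X) (a : K → ℝ) (z : K) (l : List K) : ℝ :=
  (∑ i ∈ range B.h, B.rr (i + 1) * (ind (B.Crs sg Lam N cl G i z l) *
      (1 + B.exc Lam N G (i + 1) (sg z)))) +
  a z * B.rr B.h * (ind (B.Crs sg Lam N cl G B.h z l) +
    ind (B.Dr sg Lam N cl G z l) + ind (B.Hit sg Lam N cl G q z l))

theorem bcProp (h1 : DiProp) (h2 : CcProp) (h3 : SpProp) (h4 : SvProp) (h5 : EeProp) :
    BcProp := by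
  classical
  intro X K _ _ _ _ _ _ B sg Lam N D cl th tl hOK hFine hTh hInv
  obtain ⟨e1, _, _, _, e5⟩ := h5 X K B Lam N D cl hOK
  obtain ⟨s1, s2, s3, _⟩ := h3 X K sg cl
  -- the size of a cluster as a function of the label
  obtain ⟨a, ha1, ha⟩ : ∃ a : List X → ℝ, (∀ C, 1 ≤ a C) ∧ ∀ x, a (cl x) = th x := by
    refine ⟨fun C => if h : ∃ x, cl x = C then th h.choose else 1, fun C => ?_, fun x => ?_⟩
    · by_cases h : ∃ x, cl x = C
      · simp only [h, dif_pos]
        exact hTh.one _
      · simp only [h, dif_neg, not_false_iff]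
        exact le_refl _
    · have h : ∃ y, cl y = cl x := ⟨x, rfl⟩
      simp only [h, dif_pos]
      exact hTh.eq _ _ h.choose_spec
  -- pathwise bound
  have hpath : ∀ (G : ℕ → X → ℕ) (q : ℕ → Equiv.Perm X), B.Supp N G →
      B.bcost sg Lam N cl G q D (tl.map Prod.fst) ≤
        ∑ C ∈ univ.image cl, psum (Bc_F B sg Lam N cl G q (fun _ => a C))
          ((tC sg cl tl C).map Prod.fst) := by
    intro G q hG
    have hA : B.bcost sg Lam N cl G q D (tl.map Prod.fst) ≤
        psum (fun z l => Bc_F B sg Lam N cl G q (fun z => th (sg z)) z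
          (lC sg cl l (cl (sg z)))) (tl.map Prod.fst) := by
      unfold Blk.bcost
      refine Bc_psum_le _ _ _ fun z l hm => ?_
      obtain ⟨m, hm⟩ := hm
      have hfit : (lC sg cl (z :: l) (cl (sg z))).length ≤ (aC sg cl (cl (sg z))).card := by
        refine le_trans ?_ (hInv.fits (cl (sg z)))
        rw [← hm]
        unfold lC
        rw [List.filter_append, List.length_append]
        omega
      have hD := h1 X K B sg Lam N D cl th G q z l hOK hG hTh hfit
      obtain ⟨_, _, v3, v4⟩ := h4 X K B sg Lam N cl G q z l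
      refine le_trans hD (le_of_eq ?_)
      unfold Bc_F
      rw [show B.Dr sg Lam N cl G z (lC sg cl l (cl (sg z))) = B.Dr sg Lam N cl G z l from
        propext v3, show B.Hit sg Lam N cl G q z (lC sg cl l (cl (sg z))) =
        B.Hit sg Lam N cl G q z l from propext v4]
    refine le_trans hA (le_of_eq ?_)
    rw [s1 (Bc_F B sg Lam N cl G q (fun z => th (sg z))) (tl.map Prod.fst)]
    refine Finset.sum_congr rfl fun C _ => ?_
    rw [s3 tl C]
    refine Bc_psum_congr _ _ _ fun z hz l => ?_
    have hz2 : cl (sg z) = C := by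
      unfold lC at hz
      exact of_decide_eq_true (List.mem_filter.1 hz).2
    unfold Bc_F
    rw [← hz2, ha (sg z)]
  -- one cluster
  have hone : ∀ C ∈ univ.image cl, B.EE K Lam N (fun G q =>
      psum (Bc_F B sg Lam N cl G q (fun _ => a C)) ((tC sg cl tl C).map Prod.fst)) ≤
      2000 * B.Mb * (a C * rcs sg B.W B.R (tC sg cl tl C)) := by
    intro C _
    have hsub : (tC sg cl tl C).Sublist tl := List.filter_sublist
    refine h2 X K B sg Lam N D cl C (tC sg cl tl C) (a C) hOK hFine (ha1 C) ?_ ?_ ?_ ?_ ?_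
    · intro t ht
      exact of_decide_eq_true (List.mem_filter.1 ht).2
    · intro t ht o ho
      exact hInv.good t (hsub.subset ht) o ho
    · exact (hsub.filterMap _).nodup hInv.nd
    · exact le_trans hsub.length_le hInv.len
    · have h6 := hInv.fits C
      rw [← s3 tl C, List.length_map] at h6
      exact h6
  -- sum over the clusters
  calc B.EE K Lam N (fun G q => B.bcost sg Lam N cl G q D (tl.map Prod.fst))
      ≤ B.EE K Lam N (fun G q => ∑ C ∈ univ.image cl,
          psum (Bc_F B sg Lam N cl G q (fun _ => a C)) ((tC sg cl tl C).map Prod.fst)) :=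
        e1 _ _ hpath
    _ = ∑ C ∈ univ.image cl, B.EE K Lam N (fun G q =>
          psum (Bc_F B sg Lam N cl G q (fun _ => a C)) ((tC sg cl tl C).map Prod.fst)) :=
        e5 (List X) (univ.image cl) (fun C G q =>
          psum (Bc_F B sg Lam N cl G q (fun _ => a C)) ((tC sg cl tl C).map Prod.fst))
    _ ≤ ∑ C ∈ univ.image cl, 2000 * B.Mb * (a C * rcs sg B.W B.R (tC sg cl tl C)) :=
        Finset.sum_le_sum hone
    _ = 2000 * B.Mb * PiT sg B.W B.R th tl := by
        rw [← Finset.mul_sum]
        congr 1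
        unfold PiT
        rw [s2 (fun t => th (sg t.1) * rc sg B.W B.R t) tl]
        refine Finset.sum_congr rfl fun C _ => ?_
        unfold rcs
        rw [← List.sum_map_mul_left]
        refine congrArg List.sum (List.map_congr_left fun t ht => ?_)
        have hz2 : cl (sg t.1) = C := of_decide_eq_true (List.mem_filter.1 ht).2
        show a C * rc sg B.W B.R t = th (sg t.1) * rc sg B.W B.R t
        rw [← hz2, ha (sg t.1)]

end Pool.Agent.AM.C
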