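import Pool.Agent.Lib.AM.SpecC

/-!
# AM, part C, file Bd: the tokens of one cluster (`bdProp`)
-/

set_option linter.all false
set_option autoImplicit false

namespace Pool.Agent.AM.C

open Finset Pool.Agent.MP_a4c1f4_lc Pool.Agent.MP_a4c1f4_lc.Dbl Pool.Agent.AM

/-- a sum of terms which are `≥ 0`, and `0` or `≥ e` -/
private theorem Bd_sum {α : Type} (f : α → ℝ) (e : ℝ) (l : List α)
    (h : ∀ t ∈ l, 0 ≤ f t ∧ (f t = 0 ∨ e ≤ f t)) :
    0 ≤ (l.map f).sum ∧ ((l.map f).sum = 0 ∨ e ≤ (l.map f).sum) := by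
  induction l with
  | nil => simp
  | cons a l ih =>
    obtain ⟨h1, h2⟩ := ih (fun t ht => h t (List.mem_cons_of_mem a ht))
    obtain ⟨h3, h4⟩ := h a List.mem_cons_self
    rw [List.map_cons, List.sum_cons]
    refine ⟨add_nonneg h3 h1, ?_⟩
    rcases h4 with h4 | h4
    · rcases h2 with h2 | h2
      · left
        rw [h4, h2, add_zero]
      · right
        rw [h4, zero_add]
        exact h2
    · right
      linarith

/-- **Bd** -/
theorem bdProp (h1 : RfProp) : BdProp := by
  intro X K _ _ _ _ _ _ B sg Lam N D cl C tl hB hF hC hg hn hl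
  have hW : ∀ x y, 0 ≤ B.W x y := by
    intro x y
    unfold Blk.W
    refine Finset.sum_nonneg fun i hi => ?_
    exact (hB.pm i (Nat.lt_succ_iff.1 (Finset.mem_range.1 hi))).nonneg x y
  have hR : 0 < B.R := hB.Rpos
  have he : B.R * er X K Lam N ≤ B.R := by
    have := mul_le_mul_of_nonneg_left hF.one hR.le
    linarith
  have hS := Bd_sum (rc sg B.W B.R) (B.R * er X K Lam N) tl (by
    rintro ⟨x, o⟩ ht
    unfold rc
    cases o with
    | none =>
      refine ⟨by simp only; linarith, Or.inr (by simp only; linarith)⟩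
    | some o =>
      simp only
      have h2 := hW (sg x) (sg o)
      refine ⟨by linarith, ?_⟩
      rcases hF.W (sg x) (sg o) with h3 | h3
      · left
        rw [h3, mul_zero]
      · right
        linarith)
  refine ⟨hS.1, ?_⟩
  rcases hS.2 with h2 | h2
  · exact Or.inl h2
  · refine Or.inr ⟨?_, ?_, ?_, h2⟩
    · intro x hx
      obtain ⟨t, ht, rfl⟩ := List.mem_map.1 hx
      exact hC t ht
    · rw [List.length_map]
      exact hl
    · intro G hG
      exact (h1 X K B sg Lam N D cl G tl hB hG hg hn hl).2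

end Pool.Agent.AM.C
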