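import Pool.Agent.Lib.AM.SpecC
import Mathlib

set_option linter.all false

namespace Pool.Agent.AM.C

open Finset Pool.Agent.MP_a4c1f4_lc Pool.Agent.MP_a4c1f4_lc.Dbl

/-- Expectation of a sum over a list. -/
private theorem Bp_list {X : Type} [Fintype X] [DecidableEq X] [Nonempty X] (B : Blk X)
    (Lam : ℝ) (N : ℕ) {τ : Type} (f : τ → (ℕ → X → ℕ) → ℝ) (b : τ → ℝ)
    (hc : ∀ a : ℝ, B.E Lam N sT (fun _ => a) = a)
    (ha : ∀ f f' : (ℕ → X → ℕ) → ℝ,
      B.E Lam N sT (fun G => f G + f' G) = B.E Lam N sT f + B.E Lam N sT f') :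
    ∀ tl : List τ, (∀ t ∈ tl, B.E Lam N sT (f t) ≤ b t) →
      B.E Lam N sT (fun G => (tl.map (fun t => f t G)).sum) ≤ (tl.map b).sum := by
  intro tl
  induction tl with
  | nil =>
    intro _
    simp only [List.map_nil, List.sum_nil]
    exact (hc 0).le
  | cons t tl ih =>
    intro h
    simp only [List.map_cons, List.sum_cons]
    rw [ha]
    exact add_le_add (h t (by simp)) (ih (fun t' ht' => h t' (by simp [ht'])))

private theorem Bp_rc {X K : Type} [Fintype X] [DecidableEq X] [Nonempty X] (B : Blk X)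
    (sg : K → X) (hR : 0 ≤ B.R) (hW : ∀ x y, 0 ≤ B.W x y) (t : K × Option K) :
    0 ≤ rc sg B.W B.R t := by
  unfold rc
  cases h : t.2 with
  | none => simpa using hR
  | some o =>
    have := hW (sg t.1) (sg o)
    simp only
    linarith

private theorem Bp_sum {τ : Type} (a c : ℝ) (f g : τ → ℝ) (tl : List τ) :
    (tl.map (fun t => a * f t + c * g t)).sum = a * (tl.map f).sum + c * (tl.map g).sum := by
  induction tl with
  | nil => simp
  | cons t tl ih =>
    simp only [List.map_cons, List.sum_cons]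
    rw [ih]; ring

private theorem Bp_le {τ : Type} (f g : τ → ℝ) (h : ∀ t, 1 ≤ f t) (hg : ∀ t, 0 ≤ g t)
    (tl : List τ) : (tl.map g).sum ≤ (tl.map (fun t => f t * g t)).sum := by
  induction tl with
  | nil => simp
  | cons t tl ih =>
    simp only [List.map_cons, List.sum_cons]
    have := mul_le_mul_of_nonneg_right (h t) (hg t)
    linarith

private theorem Bp_num (R' mu R Lam L P Q T E1 E2 : ℝ) (hR' : 0 ≤ R') (hmu : 0 < mu) (hR : 0 < R)
    (hLam : 24 ≤ Lam) (hL : 0 ≤ L) (hP : 0 ≤ P) (hPQ : P ≤ Q)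
    (hs : R' * (1 / mu + (2 + L) * (Lam + 1) / R) ≤ 1 / 20000)
    (h1 : E1 ≤ (200 / mu + (Lam + 1) * (2 + L) / R) * P)
    (h2 : E2 ≤ (300 * (R' / mu) + 3 * (R' / R)) * P + 9 * T) :
    2 * R' * E1 + E2 ≤ 1 / 4 * Q + 9 * T := by
  have ha : 0 ≤ R' / mu := by positivity
  have hr : 0 ≤ R' / R := by positivity
  have hc : R' / R ≤ R' * ((2 + L) * (Lam + 1) / R) := by
    have h3 : (1 : ℝ) ≤ (2 + L) * (Lam + 1) := by nlinarith
    have h4 : R' * ((2 + L) * (Lam + 1) / R) = (R' / R) * ((2 + L) * (Lam + 1)) := by ring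
    rw [h4]
    exact le_mul_of_one_le_right hr h3
  have hs' : R' / mu + R' * ((2 + L) * (Lam + 1) / R) ≤ 1 / 20000 := by
    have h5 : R' * (1 / mu + (2 + L) * (Lam + 1) / R) =
        R' / mu + R' * ((2 + L) * (Lam + 1) / R) := by ring
    rw [← h5]; exact hs
  have h6 : 2 * R' * E1 ≤ 2 * R' * ((200 / mu + (Lam + 1) * (2 + L) / R) * P) :=
    mul_le_mul_of_nonneg_left h1 (by positivity)
  have h7 : 2 * R' * ((200 / mu + (Lam + 1) * (2 + L) / R) * P) =
      (400 * (R' / mu) + 2 * (R' * ((2 + L) * (Lam + 1) / R))) * P := by ring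
  generalize R' * ((2 + L) * (Lam + 1) / R) = c at *
  generalize R' / mu = a at *
  generalize R' / R = e at *
  have h8 : (400 * a + 2 * c) * P + (300 * a + 3 * e) * P ≤ (1 / 4) * P := by
    have : (400 * a + 2 * c) + (300 * a + 3 * e) ≤ 1 / 4 := by linarith
    have := mul_le_mul_of_nonneg_right this hP
    linarith
  linarith

theorem bpProp (h1 : PsProp) (h2 : PaProp) (h3 : PtProp) (h4 : EeProp) (h5 : EbProp) :
    BpProp := by
  intro X K _ _ _ _ _ _ B sg Lam N D cl th tl W' R' hOK hF hTh hInv hW' hR' hs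
  obtain ⟨e1, e2, e3, e4, e5⟩ := h4 X K B Lam N D cl hOK
  obtain ⟨b1, b2, b3, b4, b5⟩ := h5 X B Lam N D cl hOK sT
  refine (e1 _ _ (fun G q hS => h1 X K B sg Lam N D cl G q W' R' tl hOK hS hW' hR' hInv)).trans ?_
  rw [e2, e3, e4]
  have hA := h2 X K B sg Lam N D cl tl hOK hF hInv
  have hB := Bp_list B Lam N _ _ b2 b3 tl
    (fun t _ => h3 X K B sg Lam N D cl W' R' t hOK hF hW' hR')
  rw [Bp_sum] at hB
  have hR : 0 < B.R := hOK.Rpos
  have hW : ∀ x y, 0 ≤ B.W x y := by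
    intro x y
    unfold Blk.W
    exact Finset.sum_nonneg (fun i hi => (hOK.pm i (by simpa [Nat.lt_succ_iff] using hi)).nonneg x y)
  have hrc : ∀ t : K × Option K, 0 ≤ rc sg B.W B.R t := Bp_rc B sg hR.le hW
  have hP : 0 ≤ rcs sg B.W B.R tl := by
    unfold rcs
    exact List.sum_nonneg (by
      intro a ha
      obtain ⟨t, _, rfl⟩ := List.mem_map.mp ha
      exact hrc t)
  have hPQ : rcs sg B.W B.R tl ≤ PiT sg B.W B.R th tl :=
    Bp_le (fun t : K × Option K => th (sg t.1)) (fun t => rc sg B.W B.R t)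
      (fun t => hTh.one _) hrc tl
  have hL : 0 ≤ Real.log (Fintype.card X) :=
    Real.log_nonneg (by exact_mod_cast Fintype.card_pos)
  exact Bp_num R' (B.mu 0) B.R Lam _ _ _ _ _ _ hR' (hOK.mu 0 (Nat.zero_le _)) hR hOK.hLam hL hP hPQ
    hs hA hB

end Pool.Agent.AM.C
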