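import Pool.Agent.Lib.AM.SpecC
import Mathlib.Analysis.SpecialFunctions.Log.Basic

set_option linter.all false

/-!
# AM, file C/Cc.lean: cost bound of one cluster
-/

namespace Pool.Agent.AM.C

open Finset Pool.Agent.MP_a4c1f4_lc Pool.Agent.MP_a4c1f4_lc.Dbl

private theorem Cc_add {S : Type} (f g : S → List S → ℝ) (L : List S) :
    psum (fun z l => f z l + g z l) L = psum f L + psum g L := by
  induction L with
  | nil => simp [psum]
  | cons x l ih => simp only [psum, ih]; ring

private theorem Cc_mul {S : Type} (a : ℝ) (f : S → List S → ℝ) (L : List S) :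
    psum (fun z l => a * f z l) L = a * psum f L := by
  induction L with
  | nil => simp [psum]
  | cons x l ih => simp only [psum, ih]; ring

private theorem Cc_sum {S : Type} (n : ℕ) (f : ℕ → S → List S → ℝ) (L : List S) :
    psum (fun z l => ∑ i ∈ range n, f i z l) L = ∑ i ∈ range n, psum (f i) L := by
  induction L with
  | nil => simp [psum]
  | cons x l ih => simp only [psum, ih, Finset.sum_add_distrib]

/-- Cost bound of one cluster. -/
theorem ccProp (h1 : XzProp) (h2 : HdProp) (h3 : EeProp) : CcProp := by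
  intro X K _ _ _ _ _ _ B sg Lam N D cl C tl a hOK hF ha hC hgood hnd hlen hfit
  obtain ⟨x1, x2, _, x4⟩ := h1 X K B sg Lam N D cl C tl hOK hF hC hgood hnd hlen
  have hh := h2 X K B sg Lam N D cl C tl hOK hF hC hgood hnd hlen hfit
  obtain ⟨_, eadd, emul, eG, esum⟩ := h3 X K B Lam N D cl hOK
  set P : ℝ := rcs sg B.W B.R tl with hP
  set L : List K := tl.map Prod.fst with hL
  have hR : 0 < B.R := hOK.Rpos
  have hP0 : 0 ≤ P := by
    have h := x4 (fun _ _ => 0) (fun _ _ => Nat.zero_le _)
    have h' : 0 ≤ B.R * (B.dr sg Lam N cl (fun _ _ => 0) L C : ℝ) :=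
      mul_nonneg hR.le (Nat.cast_nonneg _)
    exact le_trans h' h
  have hlog : 0 ≤ 2 + Real.log (Fintype.card X) := by
    have : 0 ≤ Real.log ((Fintype.card X : ℕ) : ℝ) := Real.log_natCast_nonneg _
    linarith
  -- the expectation splits
  have hsplit : B.EE K Lam N (fun G q => psum (fun z l =>
      (∑ i ∈ range B.h, B.rr (i + 1) * (ind (B.Crs sg Lam N cl G i z l) *
          (1 + B.exc Lam N G (i + 1) (sg z)))) +
      a * B.rr B.h * (ind (B.Crs sg Lam N cl G B.h z l) +
        ind (B.Dr sg Lam N cl G z l) + ind (B.Hit sg Lam N cl G q z l))) L)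
      = (∑ i ∈ range B.h, B.rr (i + 1) * B.E Lam N sT (fun G => psum (fun z l =>
          ind (B.Crs sg Lam N cl G i z l) * (1 + B.exc Lam N G (i + 1) (sg z))) L))
        + a * B.rr B.h * (B.E Lam N sT (fun G => psum (fun z l =>
            ind (B.Crs sg Lam N cl G B.h z l)) L)
          + B.EE K Lam N (fun G q => psum (fun z l => ind (B.Dr sg Lam N cl G z l) +
              ind (B.Hit sg Lam N cl G q z l)) L)) := by
    have hfun : (fun (G : ℕ → X → ℕ) (q : ℕ → Equiv.Perm X) => psum (fun z l =>
        (∑ i ∈ range B.h, B.rr (i + 1) * (ind (B.Crs sg Lam N cl G i z l) *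
            (1 + B.exc Lam N G (i + 1) (sg z)))) +
        a * B.rr B.h * (ind (B.Crs sg Lam N cl G B.h z l) +
          ind (B.Dr sg Lam N cl G z l) + ind (B.Hit sg Lam N cl G q z l))) L)
        = (fun G q => (∑ i ∈ range B.h, B.rr (i + 1) * psum (fun z l =>
            ind (B.Crs sg Lam N cl G i z l) * (1 + B.exc Lam N G (i + 1) (sg z))) L)
          + (a * B.rr B.h * psum (fun z l => ind (B.Crs sg Lam N cl G B.h z l)) L
            + a * B.rr B.h * psum (fun z l => ind (B.Dr sg Lam N cl G z l) +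
                ind (B.Hit sg Lam N cl G q z l)) L)) := by
      funext G q
      rw [Cc_add, Cc_sum]
      simp only [Cc_mul]
      have h4 : psum (fun z l => ind (B.Crs sg Lam N cl G B.h z l) +
          ind (B.Dr sg Lam N cl G z l) + ind (B.Hit sg Lam N cl G q z l)) L
          = psum (fun z l => ind (B.Crs sg Lam N cl G B.h z l)) L
            + psum (fun z l => ind (B.Dr sg Lam N cl G z l) +
                ind (B.Hit sg Lam N cl G q z l)) L := by
        rw [← Cc_add]
        congr 1
        funext z l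
        ring
      rw [h4]
      ring
    rw [hfun, eadd, eadd, esum, emul, emul]
    have h5 : ∀ i ∈ range B.h, B.EE K Lam N (fun G _ => B.rr (i + 1) * psum (fun z l =>
        ind (B.Crs sg Lam N cl G i z l) * (1 + B.exc Lam N G (i + 1) (sg z))) L)
        = B.rr (i + 1) * B.E Lam N sT (fun G => psum (fun z l =>
          ind (B.Crs sg Lam N cl G i z l) * (1 + B.exc Lam N G (i + 1) (sg z))) L) := by
      intro i _
      rw [emul, eG]
    rw [Finset.sum_congr rfl h5, eG]
    ring
  rw [hsplit]
  have hb1 : (∑ i ∈ range B.h, B.rr (i + 1) * B.E Lam N sT (fun G => psum (fun z l =>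
      ind (B.Crs sg Lam N cl G i z l) * (1 + B.exc Lam N G (i + 1) (sg z))) L))
      ≤ ∑ i ∈ range B.h, B.rr (i + 1) * (200 / B.mu i * P) := by
    apply Finset.sum_le_sum
    intro i hi
    have hi' : i < B.h := Finset.mem_range.mp hi
    exact mul_le_mul_of_nonneg_left (x1 i (i + 1) hi'.le hi' (by omega)) (hOK.rr (i + 1) hi').le
  have hb2 := x2 B.h le_rfl
  have hrh : 0 < B.rr B.h := hOK.rr B.h le_rfl
  have hmh : 0 < B.mu B.h := hOK.mu B.h le_rfl
  have hb3 : a * B.rr B.h * (B.E Lam N sT (fun G => psum (fun z l =>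
            ind (B.Crs sg Lam N cl G B.h z l)) L)
          + B.EE K Lam N (fun G q => psum (fun z l => ind (B.Dr sg Lam N cl G z l) +
              ind (B.Hit sg Lam N cl G q z l)) L))
      ≤ a * B.rr B.h * (200 / B.mu B.h * P + (2 + Real.log (Fintype.card X)) / B.R * P) := by
    apply mul_le_mul_of_nonneg_left _ (mul_nonneg (by linarith) hrh.le)
    exact add_le_add hb2 hh
  refine le_trans (add_le_add hb1 hb3) ?_
  set S : ℝ := ∑ i ∈ range B.h, B.rr (i + 1) / B.mu i with hS
  have hS0 : 0 ≤ S := Finset.sum_nonneg (fun i hi => by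
    have hi' : i < B.h := Finset.mem_range.mp hi
    exact div_nonneg (hOK.rr (i + 1) hi').le (hOK.mu i hi'.le).le)
  have hS2 : ∑ i ∈ range B.h, B.rr (i + 1) * (200 / B.mu i * P) = 200 * P * S := by
    rw [hS, Finset.mul_sum]
    apply Finset.sum_congr rfl
    intro i _
    ring
  rw [hS2]
  set u : ℝ := B.rr B.h / B.mu B.h with hu
  have hu0 : 0 ≤ u := div_nonneg hrh.le hmh.le
  set v : ℝ := (2 + Real.log (Fintype.card X)) * B.rr B.h / B.R with hv
  have hv0 : 0 ≤ v := div_nonneg (mul_nonneg hlog hrh.le) hR.le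
  have hMb : B.Mb = S + u + v := rfl
  rw [hMb]
  have h6 : a * B.rr B.h * (200 / B.mu B.h * P + (2 + Real.log (Fintype.card X)) / B.R * P)
      = a * P * (200 * u + v) := by
    rw [hu, hv]; ring
  rw [h6]
  have haP : P ≤ a * P := by nlinarith
  have haP0 : 0 ≤ a * P := le_trans hP0 haP
  have h7 : 200 * P * S ≤ 200 * (a * P) * S :=
    mul_le_mul_of_nonneg_right (by linarith) hS0
  have h8 : 0 ≤ a * P * S := mul_nonneg haP0 hS0
  have h9 : 0 ≤ a * P * u := mul_nonneg haP0 hu0
  have h10 : 0 ≤ a * P * v := mul_nonneg haP0 hv0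
  nlinarith

end Pool.Agent.AM.C
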