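import Pool.Agent.Lib.AM.SpecC

set_option linter.all false

/-!
AM, part C, file Co: bounds for the costs of a block.
-/

namespace Pool.Agent.AM.C

open Finset Pool.Agent.MP_a4c1f4_lc Pool.Agent.MP_a4c1f4_lc.Dbl Pool.Agent.AM

theorem coProp (h1 : FoBProp) : CoProp := by
  intro X K _ _ _ _ _ _ B sg Lam N D cl G hOK hG
  have hN0 : (0 : ℝ) < N := lt_of_lt_of_le (by have := hOK.hLam; positivity) hOK.hN
  have hLam0 : (0 : ℝ) < Lam := by linarith [hOK.hLam]
  have heta : ∀ i ≤ B.h, 0 < B.eta Lam N i := by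
    intro i hi
    unfold Blk.eta
    have := hOK.mu i hi
    positivity
  have hle : ∀ i ∈ range (B.h + 1), i ≤ B.h := fun i hi => Nat.lt_succ_iff.1 (mem_range.1 hi)
  have hR := hOK.Rpos
  have hW0 : ∀ x y, 0 ≤ B.W x y := by
    intro x y
    unfold Blk.W
    exact sum_nonneg fun i hi => (hOK.pm i (hle i hi)).nonneg x y
  have hp0 : ∀ x, 0 ≤ B.pot Lam N G x := by
    intro x
    unfold Blk.pot
    exact sum_nonneg fun i hi =>
      (h1 X (B.dp i) (B.eta Lam N i) (G i) (hOK.pm i (hle i hi)) (heta i (hle i hi))).2.2.1 x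
  have hp1 : ∀ x, B.pot Lam N G x ≤ B.R / 2 := by
    intro x
    refine le_trans ?_ hOK.noise
    unfold Blk.pot
    rw [sum_mul]
    refine sum_le_sum fun i hi => ?_
    have h2 := (h1 X (B.dp i) (B.eta Lam N i) (G i) (hOK.pm i (hle i hi))
      (heta i (hle i hi))).2.2.2 N (hG i) x
    refine le_trans h2 (le_of_eq ?_)
    unfold Blk.eta
    field_simp
  have hlip : ∀ x y, |B.pot Lam N G x - B.pot Lam N G y| ≤ B.W x y := by
    intro x y
    unfold Blk.pot Blk.W
    rw [← sum_sub_distrib]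
    refine le_trans (abs_sum_le_sum_abs _ _) (sum_le_sum fun i hi => ?_)
    exact (h1 X (B.dp i) (B.eta Lam N i) (G i) (hOK.pm i (hle i hi)) (heta i (hle i hi))).2.1 x y
  have hs : ∀ x v : K, cl (sg x) = cl (sg v) →
      B.W (sg x) (sg v) ≤ B.c sg Lam N cl G (Sum.inl x) (Sum.inl v) ∧
      B.c sg Lam N cl G (Sum.inl x) (Sum.inl v) ≤ 3 * B.W (sg x) (sg v) := by
    intro x v h
    have h2 := abs_le.1 (hlip (sg x) (sg v))
    have h3 : B.c sg Lam N cl G (Sum.inl x) (Sum.inl v) = 2 * B.W (sg x) (sg v) +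
        B.pot Lam N G (sg x) - B.pot Lam N G (sg v) := by
      simp only [Blk.c, cst, Blk.dist, Blk.potT, if_pos h]
    rw [h3]
    constructor <;> linarith [h2.1, h2.2]
  have hd : ∀ x v : K, cl (sg x) ≠ cl (sg v) →
      3 * B.R ≤ B.c sg Lam N cl G (Sum.inl x) (Sum.inl v) := by
    intro x v h
    have h3 : B.c sg Lam N cl G (Sum.inl x) (Sum.inl v) = 4 * B.R +
        B.pot Lam N G (sg x) - B.pot Lam N G (sg v) := by
      simp only [Blk.c, cst, Blk.dist, Blk.potT, if_neg h]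
    rw [h3]
    linarith [hp0 (sg x), hp1 (sg v)]
  have hm : ∀ x d : K, B.R ≤ B.c sg Lam N cl G (Sum.inl x) (Sum.inr d) ∧
      B.c sg Lam N cl G (Sum.inl x) (Sum.inr d) ≤ 3 / 2 * B.R := by
    intro x d
    have h3 : B.c sg Lam N cl G (Sum.inl x) (Sum.inr d) = B.R +
        B.pot Lam N G (sg x) - 0 := by
      simp only [Blk.c, cst, Blk.dist, Blk.potT]
    rw [h3]
    constructor <;> linarith [hp0 (sg x), hp1 (sg x)]
  refine ⟨hW0, fun x => ⟨hp0 x, hp1 x⟩, hs, hd, hm, ?_⟩
  intro r s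
  rcases r with x | x
  · rcases s with v | v
    · by_cases h : cl (sg x) = cl (sg v)
      · exact le_trans (hW0 _ _) (hs x v h).1
      · exact le_trans (by linarith) (hd x v h)
    · exact le_trans hR.le (hm x v).1
  · rcases s with v | v
    · have h3 : B.c sg Lam N cl G (Sum.inr x) (Sum.inl v) = 4 * B.R +
          0 - B.pot Lam N G (sg v) := by
        simp only [Blk.c, cst, Blk.dist, Blk.potT]
      rw [h3]
      linarith [hp1 (sg v)]
    · have h3 : B.c sg Lam N cl G (Sum.inr x) (Sum.inr v) = 4 * B.R + 0 - 0 := by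
        simp only [Blk.c, cst, Blk.dist, Blk.potT]
      rw [h3]
      linarith

end Pool.Agent.AM.C
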