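import Pool.Agent.Lib.AM.SpecC

set_option linter.all false

/-!
# AM, part C: the number of the drops of one cluster
-/

namespace Pool.Agent.AM.C

open Finset Pool.Agent.MP_a4c1f4_lc Pool.Agent.MP_a4c1f4_lc.Dbl

private theorem Dn_lC {X K : Type} [Fintype X] [DecidableEq X] [Nonempty X] [Fintype K]
    [DecidableEq K] [Nonempty K] (sg : K → X) (cl : X → List X) (l : List K) (C : List X)
    (h : ∀ x ∈ l, cl (sg x) = C) : lC sg cl l C = l := by
  unfold lC
  rw [List.filter_eq_self]
  intro x hx
  simpa using h x hx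

/-- **Dn.** The number of the drops of one cluster. -/
theorem dnProp (h1 : UrProp) : DnProp := by
  intro X K _ _ _ _ _ _ B sg Lam N D cl G l C hOK hG
  obtain ⟨hA, hB⟩ := h1 X K B sg Lam N D cl G C hOK hG
  induction l with
  | nil =>
    intro _ _
    have hd : B.dr sg Lam N cl G ([] : List K) C = 0 := by
      unfold Blk.dr
      rw [Dn_lC sg cl [] C (by simp)]
      simp
    rw [hd]
    simp [psum]
  | cons z l ih =>
    intro hlen hmem
    have hml : ∀ x ∈ l, cl (sg x) = C := fun x hx => hmem x (List.mem_cons_of_mem _ hx)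
    have hz : cl (sg z) = C := hmem z List.mem_cons_self
    have hlen1 : l.length + 1 ≤ Fintype.card K := by simpa using hlen
    have hlen0 : l.length ≤ Fintype.card K := by omega
    have IH := ih hlen0 hml
    have hdl : B.dr sg Lam N cl G l C = l.length - (usedR (B.c sg Lam N cl G) l).card := by
      unfold Blk.dr Blk.US
      rw [Dn_lC sg cl l C hml]
    have hdz : B.dr sg Lam N cl G (z :: l) C =
        (l.length + 1) - (usedR (B.c sg Lam N cl G) (z :: l)).card := by
      unfold Blk.dr Blk.US
      rw [Dn_lC sg cl (z :: l) C hmem, List.length_cons]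
    have hsv : B.svC sg Lam N cl G z l = sv (B.c sg Lam N cl G) z l := by
      unfold Blk.svC
      rw [hz, Dn_lC sg cl l C hml]
    have hc1 := (hA l hml hlen0).2.1
    have hps : psum (fun z l => ind (B.Dr sg Lam N cl G z l)) (z :: l) =
        psum (fun z l => ind (B.Dr sg Lam N cl G z l)) l + ind (B.Dr sg Lam N cl G z l) := rfl
    rw [hps, IH, hdl, hdz]
    obtain ⟨hin, hout⟩ := hB z l hmem hlen1
    rcases hs : sv (B.c sg Lam N cl G) z l with y | d
    · obtain ⟨_, hy2, hy3⟩ := hin y hs
      have hnd : ¬ B.Dr sg Lam N cl G z l := by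
        rintro ⟨d, hd⟩
        rw [hsv, hs] at hd
        exact absurd hd (by simp)
      rw [ind_false hnd, hy3, Finset.card_insert_of_notMem hy2, Nat.add_sub_add_right, add_zero]
    · have hd : B.Dr sg Lam N cl G z l := ⟨d, by rw [hsv, hs]⟩
      rw [ind_true hd, hout d hs]
      rw [Nat.cast_sub hc1, Nat.cast_sub (le_trans hc1 (Nat.le_succ _))]
      push_cast
      ring

end Pool.Agent.AM.C
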