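import Pool.Agent.Lib.AM.SpecC

set_option linter.all false

/-!
# AM, part C: rules for the expectation over a block (`EeProp`)
-/

namespace Pool.Agent.AM.C

open Finset Pool.Agent.MP_a4c1f4_lc Pool.Agent.MP_a4c1f4_lc.Dbl

private theorem Ee_card (X : Type) [Fintype X] [DecidableEq X] (k : ℕ) :
    ((Fintype.card (Fin k → Equiv.Perm X) : ℕ) : ℝ) = ((Fintype.card X).factorial : ℝ) ^ k := by
  rw [Fintype.card_fun, Fintype.card_perm, Fintype.card_fin]
  push_cast
  rfl

theorem eeProp (h1 : EbProp) : EeProp := by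
  intro X K _ _ _ _ _ _ B Lam N D cl hOK
  obtain ⟨hmono, hone, hadd, hmul, -⟩ := h1 X B Lam N D cl hOK sT
  have hf : 0 < ((Fintype.card X).factorial : ℝ) ^ Fintype.card K :=
    pow_pos (by exact_mod_cast Nat.factorial_pos _) _
  have hadd' : ∀ f f' : (ℕ → X → ℕ) → (ℕ → Equiv.Perm X) → ℝ,
      B.EE K Lam N (fun G q => f G q + f' G q) = B.EE K Lam N f + B.EE K Lam N f' := by
    intro f f'
    unfold Blk.EE
    rw [← hadd]
    congr 1
    funext G
    rw [sum_add_distrib, mul_add]
  have hconst : ∀ f : (ℕ → X → ℕ) → ℝ, B.EE K Lam N (fun G _ => f G) = B.E Lam N sT f := by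
    intro f
    unfold Blk.EE
    congr 1
    funext G
    rw [sum_const, card_univ, nsmul_eq_mul, Ee_card, ← mul_assoc, one_div_mul_cancel hf.ne',
      one_mul]
  refine ⟨?_, hadd', ?_, hconst, ?_⟩
  · intro f f' h
    unfold Blk.EE
    refine hmono _ _ ?_
    intro G hG hC
    refine mul_le_mul_of_nonneg_left ?_ (by positivity)
    refine sum_le_sum ?_
    intro q _
    exact h G (extP q) ⟨hG, fun i hi => hC i hi rfl⟩
  · intro a f
    unfold Blk.EE
    rw [← hmul]
    congr 1
    funext G
    rw [← mul_sum]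
    ring
  · intro ι s f
    classical
    induction s using Finset.induction_on with
    | empty =>
      simp only [sum_empty]
      rw [hconst]
      exact hone 0
    | insert a s ha ih =>
      rw [sum_insert ha, ← ih, ← hadd']
      congr 1
      funext G q
      rw [sum_insert ha]

end Pool.Agent.AM.C
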