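import Pool.Agent.Lib.AM.SpecC

set_option linter.all false

/-!
# AM, module C/Ff: the sets `FF`
-/

namespace Pool.Agent.AM.C

open Finset Pool.Agent.MP_a4c1f4_lc Pool.Agent.MP_a4c1f4_lc.Dbl

private theorem Ff_tp {T : Type} [Fintype T] [DecidableEq T] (h1 : TopProp) (Y : T → ℝ)
    (S : Finset T) (hS : 0 < S.card) : ∃ w ∈ S, tp Y S 1 = {w} := by
  have hc : (tp Y S 1).card = 1 := by
    rw [(h1 T Y S 1).1]
    omega
  obtain ⟨w, hw⟩ := Finset.card_eq_one.1 hc
  refine ⟨w, ?_, hw⟩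
  have : w ∈ tp Y S 1 := by
    rw [hw]
    exact Finset.mem_singleton_self w
  unfold tp at this
  exact (Finset.mem_filter.1 this).1

private theorem Ff_one {X K : Type} [Fintype X] [DecidableEq X] [Fintype K] [DecidableEq K]
    (h1 : TopProp) (sg : K → X) (q : ℕ → Equiv.Perm X) (A F : Finset K) (hFA : F ⊆ A) :
    ∀ i, F.card + i ≤ A.card →
      F ⊆ FF sg q A F i ∧ FF sg q A F i ⊆ A ∧ (FF sg q A F i).card = F.card + i := by
  intro i
  induction i with
  | zero =>
    intro _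
    exact ⟨fun x hx => hx, hFA, rfl⟩
  | succ i ih =>
    intro hi
    obtain ⟨a1, a2, a3⟩ := ih (by omega)
    have hc : (A \ FF sg q A F i).card = A.card - (F.card + i) := by
      rw [Finset.card_sdiff_of_subset a2, a3]
    obtain ⟨w, hw, htp⟩ := Ff_tp h1 (YP sg (q i)) (A \ FF sg q A F i) (by omega)
    obtain ⟨hwA, hwE⟩ := Finset.mem_sdiff.1 hw
    have e : FF sg q A F (i + 1) = insert w (FF sg q A F i) := by
      change FF sg q A F i ∪ tp (YP sg (q i)) (A \ FF sg q A F i) 1 = _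
      rw [htp, Finset.union_comm]
      rfl
    rw [e]
    refine ⟨fun x hx => Finset.mem_insert_of_mem (a1 hx), ?_, ?_⟩
    · intro x hx
      rcases Finset.mem_insert.1 hx with rfl | hx
      · exact hwA
      · exact a2 hx
    · rw [Finset.card_insert_of_notMem hwE, a3]
      omega

private theorem Ff_three {X K : Type} [Fintype X] [DecidableEq X] [Fintype K] [DecidableEq K]
    (h1 : TopProp) (sg : K → X) (q : ℕ → Equiv.Perm X) (A F : Finset K) (hFA : F ⊆ A) :
    ∀ i, F.card + i + 1 ≤ A.card →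
      ∃ w ∈ A, w ∉ FF sg q A F i ∧ FF sg q A F (i + 1) = insert w (FF sg q A F i) := by
  intro i hi
  obtain ⟨a1, a2, a3⟩ := Ff_one h1 sg q A F hFA i (by omega)
  have hc : (A \ FF sg q A F i).card = A.card - (F.card + i) := by
    rw [Finset.card_sdiff_of_subset a2, a3]
  obtain ⟨w, hw, htp⟩ := Ff_tp h1 (YP sg (q i)) (A \ FF sg q A F i) (by omega)
  obtain ⟨hwA, hwE⟩ := Finset.mem_sdiff.1 hw
  refine ⟨w, hwA, hwE, ?_⟩
  change FF sg q A F i ∪ tp (YP sg (q i)) (A \ FF sg q A F i) 1 = _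
  rw [htp, Finset.union_comm]
  rfl

private theorem Ff_two {X K : Type} [Fintype X] [DecidableEq X] [Fintype K] [DecidableEq K]
    (h1 : TopProp) (h2 : DelProp) (sg : K → X) (q : ℕ → Equiv.Perm X) (A F : Finset K)
    (hFA : F ⊆ A) (y : K) (hyA : y ∈ A) (hyF : y ∉ F) :
    ∀ i, F.card + 1 + i ≤ A.card →
      ∃ w ∈ A, w ∉ FF sg q A F i ∧ FF sg q A (insert y F) i = insert w (FF sg q A F i) := by
  intro i
  induction i with
  | zero =>
    intro _
    exact ⟨y, hyA, hyF, rfl⟩
  | succ i ih =>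
    intro hi
    obtain ⟨w, hwA, hwE, e⟩ := ih (by omega)
    obtain ⟨a1, a2, a3⟩ := Ff_one h1 sg q A F hFA i (by omega)
    have hc : (A \ FF sg q A F i).card = A.card - (F.card + i) := by
      rw [Finset.card_sdiff_of_subset a2, a3]
    have hwS : w ∈ A \ FF sg q A F i := Finset.mem_sdiff.2 ⟨hwA, hwE⟩
    have eS : A \ FF sg q A (insert y F) i = (A \ FF sg q A F i).erase w := by
      rw [e]
      ext x
      simp only [Finset.mem_sdiff, Finset.mem_insert, Finset.mem_erase, not_or]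
      tauto
    have eE' : FF sg q A (insert y F) (i + 1) =
        insert w (FF sg q A F i) ∪ tp (YP sg (q i)) ((A \ FF sg q A F i).erase w) 1 := by
      change FF sg q A (insert y F) i ∪
        tp (YP sg (q i)) (A \ FF sg q A (insert y F) i) 1 = _
      rw [eS, e]
    have eE : FF sg q A F (i + 1) =
        FF sg q A F i ∪ tp (YP sg (q i)) (A \ FF sg q A F i) 1 := rfl
    obtain ⟨d1, d2, -⟩ := h2 K (YP sg (q i)) (A \ FF sg q A F i) 1 w hwS (by omega)
    by_cases hw : w ∈ tp (YP sg (q i)) (A \ FF sg q A F i) 1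
    · obtain ⟨n1, n2, n3, n4, -⟩ := d2 hw
      obtain ⟨w0, -, htp⟩ := Ff_tp h1 (YP sg (q i)) (A \ FF sg q A F i) (by omega)
      rw [htp, Finset.mem_singleton] at hw
      rw [← hw] at htp
      generalize nx (YP sg (q i)) (A \ FF sg q A F i) 1 w = w' at *
      obtain ⟨m1, m2⟩ := Finset.mem_sdiff.1 n1
      refine ⟨w', m1, ?_, ?_⟩
      · rw [eE, htp]
        simp only [Finset.mem_union, Finset.mem_singleton, not_or]
        exact ⟨m2, n3⟩
      · rw [eE', eE, n4, htp]
        ext x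
        simp only [Finset.mem_union, Finset.mem_insert, Finset.mem_erase, Finset.mem_singleton]
        tauto
    · obtain ⟨-, n4, -⟩ := d1 hw
      refine ⟨w, hwA, ?_, ?_⟩
      · rw [eE]
        simp only [Finset.mem_union, not_or]
        exact ⟨hwE, hw⟩
      · rw [eE', eE, n4, Finset.insert_union]

theorem ffProp (h1 : Dbl.TopProp) (h2 : Dbl.DelProp) : FfProp := by
  intro X K _ _ _ _ _ _ sg q A F hFA
  exact ⟨Ff_one h1 sg q A F hFA, fun y i hy hyF hi => Ff_two h1 h2 sg q A F hFA y hy hyF i hi,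
    Ff_three h1 sg q A F hFA⟩

end Pool.Agent.AM.C
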