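import Pool.Agent.Lib.AM.SpecC

set_option linter.all false

/-!
# AM, C/Hd: drops and hits of one cluster
-/

namespace Pool.Agent.AM.C

open Finset Pool.Agent.MP_a4c1f4_lc Pool.Agent.MP_a4c1f4_lc.Dbl

private theorem Hd_psum_add {S : Type} (f g : S → List S → ℝ) (l : List S) :
    psum (fun z l => f z l + g z l) l = psum f l + psum g l := by
  induction l with
  | nil => simp [psum]
  | cons x l ih =>
    show psum (fun z l => f z l + g z l) l + (f x l + g x l) =
      (psum f l + f x l) + (psum g l + g x l)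
    rw [ih]
    ring

private theorem Hd_avg {X : Type} [Fintype X] [DecidableEq X] (k : ℕ) (a : ℝ) :
    (1 / ((Fintype.card X).factorial : ℝ) ^ k) *
      ∑ _q : Fin k → Equiv.Perm X, a = a := by
  rw [Finset.sum_const, Finset.card_univ, Fintype.card_fun, Fintype.card_perm, Fintype.card_fin,
    nsmul_eq_mul, Nat.cast_pow, ← mul_assoc, one_div, inv_mul_cancel₀, one_mul]
  exact pow_ne_zero _ (Nat.cast_ne_zero.mpr (Nat.factorial_ne_zero _))

theorem hdProp (h1 : XzProp) (h2 : HitProp) (h3 : DnProp) (h4 : EeProp) (h5 : EbProp) :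
    HdProp := by
  intro X K _ _ _ _ _ _ B sg Lam N D cl C tl hOK hF hC hg hnd hlen hfit
  obtain ⟨hmono, hconst, -, -, -⟩ := h5 X B Lam N D cl hOK sT
  obtain ⟨-, -, -, hdr⟩ := h1 X K B sg Lam N D cl C tl hOK hF hC hg hnd hlen
  set L := tl.map Prod.fst with hL
  have hLlen : L.length = tl.length := List.length_map _
  have hLC : ∀ x ∈ L, cl (sg x) = C := by
    intro x hx
    obtain ⟨t, ht, rfl⟩ := List.mem_map.mp hx
    exact hC t ht
  have hR := hOK.Rpos
  have hlog : 0 ≤ Real.log (Fintype.card X) :=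
    Real.log_nonneg (by exact_mod_cast Fintype.card_pos)
  have key : B.E Lam N sT (fun G => (1 / ((Fintype.card X).factorial : ℝ) ^ Fintype.card K) *
      ∑ q : Fin (Fintype.card K) → Equiv.Perm X,
        psum (fun z l => ind (B.Dr sg Lam N cl G z l) +
          ind (B.Hit sg Lam N cl G (extP q) z l)) L) ≤
      B.E Lam N sT (fun _ => (2 + Real.log (Fintype.card X)) / B.R * rcs sg B.W B.R tl) := by
    refine hmono _ _ fun G hG _ => ?_
    have hGN : ∀ i z, G i z ≤ N := fun i z => (hG i z).le
    have e1 : ∀ q : Fin (Fintype.card K) → Equiv.Perm X,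
        psum (fun z l => ind (B.Dr sg Lam N cl G z l) +
          ind (B.Hit sg Lam N cl G (extP q) z l)) L =
        (B.dr sg Lam N cl G L C : ℝ) +
          psum (fun z l => ind (B.Hit sg Lam N cl G (extP q) z l)) L := by
      intro q
      rw [Hd_psum_add, h3 X K B sg Lam N D cl G L C hOK hGN (hLlen ▸ hlen) hLC]
    have e2 := h2 X K B sg Lam N D cl G L C hOK hGN (hLlen ▸ hlen) hLC (hLlen ▸ hfit)
    have e3 : (1 / ((Fintype.card X).factorial : ℝ) ^ Fintype.card K) *
        ∑ q : Fin (Fintype.card K) → Equiv.Perm X,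
          psum (fun z l => ind (B.Dr sg Lam N cl G z l) +
            ind (B.Hit sg Lam N cl G (extP q) z l)) L =
        (B.dr sg Lam N cl G L C : ℝ) +
          (1 / ((Fintype.card X).factorial : ℝ) ^ Fintype.card K) *
          ∑ q : Fin (Fintype.card K) → Equiv.Perm X,
            psum (fun z l => ind (B.Hit sg Lam N cl G (extP q) z l)) L := by
      rw [Finset.sum_congr rfl fun q _ => e1 q, Finset.sum_add_distrib, mul_add, Hd_avg]
    rw [e3]
    have e4 := hdr G hGN
    have e5 : (B.dr sg Lam N cl G L C : ℝ) ≤ rcs sg B.W B.R tl / B.R := by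
      rw [le_div_iff₀ hR, mul_comm]
      exact e4
    have e6 : (2 + Real.log (Fintype.card X)) / B.R * rcs sg B.W B.R tl =
        (2 + Real.log (Fintype.card X)) * (rcs sg B.W B.R tl / B.R) := by ring
    rw [e6]
    have e7 : (2 + Real.log (Fintype.card X)) * (B.dr sg Lam N cl G L C : ℝ) ≤
        (2 + Real.log (Fintype.card X)) * (rcs sg B.W B.R tl / B.R) :=
      mul_le_mul_of_nonneg_left e5 (by linarith)
    have e8 : (2 + Real.log (Fintype.card X)) * (B.dr sg Lam N cl G L C : ℝ) =
      (B.dr sg Lam N cl G L C : ℝ) +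
        (1 + Real.log (Fintype.card X)) * (B.dr sg Lam N cl G L C : ℝ) := by ring
    linarith
  rw [hconst] at key
  exact key

end Pool.Agent.AM.C
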