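import Pool.Agent.Lib.AM.SpecC

set_option linter.all false

/-!
# AM, part C: the invariants of the next block
-/

namespace Pool.Agent.AM.C

open Finset Pool.Agent.MP_a4c1f4_lc Pool.Agent.MP_a4c1f4_lc.Dbl

section
variable {X K : Type} [Fintype X] [DecidableEq X] [Nonempty X] [Fintype K] [DecidableEq K]
  [Nonempty K]
variable (B : Blk X) (sg : K → X) (Lam : ℝ) (N : ℕ) (cl : X → List X) (G : ℕ → X → ℕ)
  (q : ℕ → Equiv.Perm X)

private theorem Iv_nt2 (t : K × Option K) (l : List K) (o : K)
    (h : (B.nt sg Lam N cl G q t l).2 = some o) :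
    t.2 = some o ∧ B.np sg Lam N cl G q t.1 l = t.1 ∧
      B.ncl Lam N cl G (sg t.1) = B.ncl Lam N cl G (sg o) := by
  obtain ⟨a, b⟩ := t
  cases b with
  | none => simp [Blk.nt] at h
  | some o' =>
    simp only [Blk.nt] at h
    split_ifs at h with h'
    · have ho : o' = o := by simpa using h
      subst ho
      exact ⟨rfl, h'.1, h'.2⟩

private theorem Iv_good (tl : List (K × Option K)) :
    ∀ t ∈ B.ntl sg Lam N cl G q tl, ∀ o, t.2 = some o →
      B.ncl Lam N cl G (sg t.1) = B.ncl Lam N cl G (sg o) := by
  induction tl with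
  | nil => intro t ht; simp [Blk.ntl] at ht
  | cons a tl ih =>
    intro t ht o ho
    simp only [Blk.ntl, List.mem_cons] at ht
    rcases ht with rfl | ht
    · obtain ⟨h1, h2, h3⟩ := Iv_nt2 B sg Lam N cl G q a _ o ho
      have : (B.nt sg Lam N cl G q a (tl.map Prod.fst)).1 = a.1 := h2
      rw [this]
      exact h3
    · exact ih t ht o ho

private theorem Iv_sub (tl : List (K × Option K)) :
    ((B.ntl sg Lam N cl G q tl).filterMap Prod.snd).Sublist (tl.filterMap Prod.snd) := by
  induction tl with
  | nil => simp [Blk.ntl]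
  | cons a tl ih =>
    simp only [Blk.ntl]
    cases hb : (B.nt sg Lam N cl G q a (tl.map Prod.fst)).2 with
    | none =>
      rw [List.filterMap_cons_none hb]
      cases ha : a.2 with
      | none => rw [List.filterMap_cons_none ha]; exact ih
      | some o => rw [List.filterMap_cons_some ha]; exact ih.trans (List.sublist_cons_self _ _)
    | some o =>
      rw [List.filterMap_cons_some hb,
        List.filterMap_cons_some (Iv_nt2 B sg Lam N cl G q a _ o hb).1]
      exact List.Sublist.cons_cons _ ih

private theorem Iv_fst (tl : List (K × Option K)) :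
    (B.ntl sg Lam N cl G q tl).map Prod.fst = B.npl sg Lam N cl G q (tl.map Prod.fst) := by
  induction tl with
  | nil => simp [Blk.ntl, Blk.npl]
  | cons a tl ih =>
    simp only [Blk.ntl, Blk.npl, List.map_cons]
    rw [ih]
    rfl

private theorem Iv_len (tl : List (K × Option K)) :
    (B.ntl sg Lam N cl G q tl).length = tl.length := by
  induction tl with
  | nil => simp [Blk.ntl]
  | cons a tl ih => simp [Blk.ntl, ih]

end

/-- The invariants of the next block. -/
theorem ivProp (h1 : NlProp) (h2 : ThProp) (h3 : NvProp) : IvProp := by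
  intro X K _ _ _ _ _ _ B sg Lam N D cl th tl G q hB hI hS
  have hG : ∀ i z, G i z ≤ N := fun i z => (hS.1 i z).le
  obtain ⟨hnl1, hnl2⟩ := h1 X K B sg Lam N D cl G q hB hG (tl.map Prod.fst) hI.fits
  obtain ⟨ht1, -, ht3, -⟩ := h2 X B Lam N D cl G hB
  have hfst := Iv_fst B sg Lam N cl G q tl
  have hself : ∀ x, D x x = 0 := hB.pmD.self
  have hsr : 0 ≤ B.sr 0 := by
    have x : X := Classical.arbitrary X
    have := ht3 hG 0 (Nat.zero_le _) x x rfl
    rw [hself x] at this
    linarith
  refine ⟨⟨Iv_good B sg Lam N cl G q tl, hI.nd.sublist (Iv_sub B sg Lam N cl G q tl), ?_, ?_⟩,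
    ht1 hS, hfst, hnl1, ?_⟩
  · intro C
    rw [hfst]
    exact hnl2 C
  · rw [Iv_len]
    exact hI.len
  · intro z l _
    by_cases h : B.ncl Lam N cl G (sg (B.nv sg Lam N cl G q z l)) = B.ncl Lam N cl G (sg z)
    · have hnp : B.np sg Lam N cl G q z l = z := by
        unfold Blk.np
        rw [if_pos h]
      rw [hnp, hself]
      have ho : B.ow Lam N G 0 (sg z) = B.ow Lam N G 0 (sg (B.nv sg Lam N cl G q z l)) := by
        have := (List.cons.inj h).1
        exact this.symm
      have := ht3 hG 0 (Nat.zero_le _) _ _ ho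
      linarith
    · have hnp : B.np sg Lam N cl G q z l = B.nv sg Lam N cl G q z l := by
        unfold Blk.np
        rw [if_neg h]
      rw [hnp]
      linarith

end Pool.Agent.AM.C
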