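import Pool.Agent.Lib.AM.SpecC

set_option linter.all false

/-!
# AM, C/Law: the law of a block as a weighted sum over configurations in the support
-/

namespace Pool.Agent.AM.C

open Finset Pool.Agent.MP_a4c1f4_lc Pool.Agent.MP_a4c1f4_lc.Dbl

private theorem Law_avg {X : Type} [Fintype X] [DecidableEq X] (k : ℕ) (a : ℝ) :
    (1 / ((Fintype.card X).factorial : ℝ) ^ k) *
      ∑ _q : Fin k → Equiv.Perm X, a = a := by
  rw [Finset.sum_const, Finset.card_univ, Fintype.card_fun, Fintype.card_perm, Fintype.card_fin,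
    nsmul_eq_mul, Nat.cast_pow, ← mul_assoc, one_div, inv_mul_cancel₀, one_mul]
  exact pow_ne_zero _ (Nat.cast_ne_zero.mpr (Nat.factorial_ne_zero _))

section
variable {X : Type} [Fintype X] [DecidableEq X] [Nonempty X]

private theorem Law_ext {h N : ℕ} (g : Fin (h + 1) → X → Fin N) (i : ℕ) (hi : i < h + 1) :
    extG g i = fun z => ((g ⟨i, hi⟩ z : Fin N) : ℕ) := by
  funext z
  exact dif_pos hi

private theorem Law_zero (B : Blk X) (Lam : ℝ) (N : ℕ) (g : Fin (B.h + 1) → X → Fin N)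
    (hg : ¬ ∀ i : Fin (B.h + 1), B.Cov i (fun z => ((g i z : Fin N) : ℕ))) :
    ∏ i : Fin (B.h + 1), B.lws Lam N (sT i) i (g i) = 0 := by
  push Not at hg
  obtain ⟨i, hi⟩ := hg
  refine Finset.prod_eq_zero (Finset.mem_univ i) ?_
  show lw Lam (g i) * ind (B.Cov i (fun z => ((g i z : Fin N) : ℕ))) / B.Z Lam N i = 0
  rw [ind_false hi, mul_zero, zero_div]

end

theorem lwProp (h1 : EbProp) (h2 : TwProp) : LwProp := by
  intro X K _ _ _ _ _ _ B Lam N D cl hOK
  classical
  obtain ⟨-, hconst, -, -, -⟩ := h1 X B Lam N D cl hOK sT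
  obtain ⟨-, -, -, -, -, -, htw, -, -, -⟩ := h2 Lam N hOK.hLam hOK.hN
  have hNpos : 0 < N := by
    rcases Nat.eq_zero_or_pos N with h0 | h0
    · have h3 := hOK.hN
      have h4 := hOK.hLam
      rw [h0] at h3
      norm_num at h3
      nlinarith
    · exact h0
  have hformula : ∀ f : (ℕ → X → ℕ) → (ℕ → Equiv.Perm X) → ℝ, B.EE K Lam N f =
      ∑ ω : {g : Fin (B.h + 1) → X → Fin N //
        ∀ i : Fin (B.h + 1), B.Cov i (fun z => ((g i z : Fin N) : ℕ))} ×
          (Fin (Fintype.card K) → Equiv.Perm X),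
        ((∏ i : Fin (B.h + 1), B.lws Lam N (sT i) i (ω.1.1 i)) *
          (1 / ((Fintype.card X).factorial : ℝ) ^ Fintype.card K)) *
          f (extG ω.1.1) (extP ω.2) := by
    intro f
    rw [Fintype.sum_prod_type]
    show ∑ g : Fin (B.h + 1) → X → Fin N,
      (∏ i : Fin (B.h + 1), B.lws Lam N (sT i) i (g i)) *
        ((1 / ((Fintype.card X).factorial : ℝ) ^ Fintype.card K) *
          ∑ q : Fin (Fintype.card K) → Equiv.Perm X, f (extG g) (extP q)) = _
    rw [← Finset.sum_subset (Finset.filter_subset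
      (fun g : Fin (B.h + 1) → X → Fin N =>
        ∀ i : Fin (B.h + 1), B.Cov i (fun z => ((g i z : Fin N) : ℕ))) Finset.univ)
      (fun g _ hg => by
        have hg' : ¬ ∀ i : Fin (B.h + 1), B.Cov i (fun z => ((g i z : Fin N) : ℕ)) :=
          fun h => hg (Finset.mem_filter.mpr ⟨Finset.mem_univ _, h⟩)
        rw [Law_zero B Lam N g hg', zero_mul])]
    rw [Finset.sum_subtype (p := fun g : Fin (B.h + 1) → X → Fin N =>
        ∀ i : Fin (B.h + 1), B.Cov i (fun z => ((g i z : Fin N) : ℕ))) _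
      (fun g => by simp)]
    refine Finset.sum_congr rfl fun g _ => ?_
    rw [← mul_assoc, Finset.mul_sum]
  refine ⟨{g : Fin (B.h + 1) → X → Fin N //
        ∀ i : Fin (B.h + 1), B.Cov i (fun z => ((g i z : Fin N) : ℕ))} ×
          (Fin (Fintype.card K) → Equiv.Perm X), inferInstance,
    fun ω => (∏ i : Fin (B.h + 1), B.lws Lam N (sT i) i (ω.1.1 i)) *
          (1 / ((Fintype.card X).factorial : ℝ) ^ Fintype.card K),
    fun ω => extG ω.1.1, fun ω => extP ω.2, ?_, ?_, ?_, hformula⟩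
  · intro ω
    refine mul_nonneg (Finset.prod_nonneg fun i _ => ?_) (by positivity)
    have hi : (i : ℕ) ≤ B.h := Nat.lt_succ_iff.mp i.2
    have hZ := hOK.Z i hi
    show 0 ≤ lw Lam (ω.1.1 i) * ind (B.Cov i (fun z => ((ω.1.1 i z : Fin N) : ℕ))) /
      B.Z Lam N i
    exact div_nonneg (mul_nonneg (Finset.prod_nonneg fun z _ => htw _) (ind_nonneg _))
      (by linarith)
  · have h3 := hformula (fun _ _ => (1 : ℝ))
    have h4 : B.EE K Lam N (fun _ _ => (1 : ℝ)) = 1 := by
      show B.E Lam N sT (fun G => (1 / ((Fintype.card X).factorial : ℝ) ^ Fintype.card K) *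
        ∑ q : Fin (Fintype.card K) → Equiv.Perm X, (1 : ℝ)) = 1
      rw [Law_avg]
      exact hconst 1
    rw [h4] at h3
    refine Eq.trans ?_ h3.symm
    exact Finset.sum_congr rfl fun ω _ => (mul_one _).symm
  · intro ω
    constructor
    · intro i z
      show extG ω.1.1 i z < N
      by_cases hi : i < B.h + 1
      · rw [Law_ext ω.1.1 i hi]
        exact (ω.1.1 ⟨i, hi⟩ z).2
      · have : extG ω.1.1 i z = 0 := dif_neg hi
        rw [this]
        exact hNpos
    · intro i hi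
      show B.Cov i (extG ω.1.1 i)
      rw [Law_ext ω.1.1 i (Nat.lt_succ_iff.mpr hi)]
      exact ω.1.2 ⟨i, Nat.lt_succ_iff.mpr hi⟩

end Pool.Agent.AM.C
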