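import Pool.Agent.Lib.AM.SpecC

set_option linter.all false

/-!
# AM, part C: the new copies are different, and the new positions fit in the new clusters
-/

namespace Pool.Agent.AM.C

open Finset Pool.Agent.MP_a4c1f4_lc Pool.Agent.MP_a4c1f4_lc.Dbl
open Pool.Agent.AM

section
variable {X K : Type} [Fintype X] [DecidableEq X] [Nonempty X] [Fintype K] [DecidableEq K]
  [Nonempty K]

private theorem Nl_tail (sg : K → X) (cl : X → List X) (z : K) (l : List K) (C : List X) :
    (lC sg cl l C).length ≤ (lC sg cl (z :: l) C).length := by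
  classical
  unfold lC
  exact ((List.sublist_cons_self z l).filter _).length_le

private theorem Nl_np (B : Blk X) (sg : K → X) (Lam : ℝ) (N : ℕ) (cl : X → List X)
    (G : ℕ → X → ℕ) (q : ℕ → Equiv.Perm X) (z : K) (l : List K) :
    B.ncl Lam N cl G (sg (B.np sg Lam N cl G q z l)) =
      B.ncl Lam N cl G (sg (B.nv sg Lam N cl G q z l)) := by
  unfold Blk.np
  split_ifs with h
  · exact h.symm
  · rfl

private theorem Nl_len (B : Blk X) (sg : K → X) (Lam : ℝ) (N : ℕ) (cl : X → List X)
    (G : ℕ → X → ℕ) (q : ℕ → Equiv.Perm X) (C : List X) (l : List K) :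
    (lC sg (B.ncl Lam N cl G) (B.npl sg Lam N cl G q l) C).length =
      (lC sg (B.ncl Lam N cl G) (B.nvl sg Lam N cl G q l) C).length := by
  classical
  induction l with
  | nil => rfl
  | cons z l ih =>
    have h := Nl_np B sg Lam N cl G q z l
    unfold lC at ih ⊢
    rw [Blk.npl, Blk.nvl, List.filter_cons, List.filter_cons, h]
    split_ifs
    · rw [List.length_cons, List.length_cons, ih]
    · exact ih

end

theorem nlProp (h1 : NvProp) : NlProp := by
  intro X K _ _ _ _ _ _ B sg Lam N D cl G q hOK hG
  classical
  obtain ⟨hv1, hv2, hv3⟩ := h1 X K B sg Lam N D cl G q hOK hG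
  have key : ∀ l : List K, (∀ C, (lC sg cl l C).length ≤ (aC sg cl C).card) →
      (B.nvl sg Lam N cl G q l).Nodup ∧ ∀ v, v ∈ B.nvl sg Lam N cl G q l ↔
        v ∈ B.VS sg Lam N cl G q l (cl (sg v)) := by
    intro l
    induction l with
    | nil =>
      intro hl
      refine ⟨List.nodup_nil, fun v => ?_⟩
      have h2 := (hv1 [] (cl (sg v)) (hl _)).2
      have h3 : (lC sg cl ([] : List K) (cl (sg v))).length = 0 := rfl
      rw [h3, Finset.card_eq_zero] at h2
      rw [h2]
      constructor
      · intro h4
        exact absurd h4 List.not_mem_nil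
      · intro h4
        exact absurd h4 (Finset.notMem_empty v)
    | cons z l ih =>
      intro hl
      obtain ⟨ih1, ih2⟩ := ih fun C => (Nl_tail sg cl z l C).trans (hl C)
      obtain ⟨h2, h3, h4⟩ := hv2 z l (hl _)
      have h5 : B.nvl sg Lam N cl G q (z :: l) =
          B.nv sg Lam N cl G q z l :: B.nvl sg Lam N cl G q l := rfl
      rw [h5]
      constructor
      · rw [List.nodup_cons]
        refine ⟨fun h6 => ?_, ih1⟩
        rw [ih2, h2] at h6
        exact h3 h6
      · intro v
        rw [List.mem_cons, ih2]
        by_cases h6 : cl (sg v) = cl (sg z)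
        · rw [h6, h4, Finset.mem_insert]
        · rw [hv3 z l _ h6]
          constructor
          · rintro (h7 | h7)
            · exfalso
              rw [h7] at h6
              exact h6 h2
            · exact h7
          · intro h7
            exact Or.inr h7
  intro l hl
  obtain ⟨hn, -⟩ := key l hl
  refine ⟨hn, fun C' => ?_⟩
  rw [Nl_len]
  have h2 : (lC sg (B.ncl Lam N cl G) (B.nvl sg Lam N cl G q l) C').Nodup := by
    unfold lC
    exact hn.filter _
  rw [← List.toFinset_card_of_nodup h2]
  refine Finset.card_le_card fun v hv => ?_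
  rw [List.mem_toFinset] at hv
  unfold lC at hv
  unfold aC
  rw [List.mem_filter, decide_eq_true_eq] at hv
  rw [Finset.mem_filter]
  exact ⟨Finset.mem_univ v, hv.2⟩

end Pool.Agent.AM.C
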