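import Pool.Agent.Lib.AM.SpecC

set_option linter.all false

/-!
# AM, part C, file Nv: the new copy of a request (from `UrProp`, `FfProp`)
-/

namespace Pool.Agent.AM.C

open Finset Pool.Agent.MP_a4c1f4_lc Pool.Agent.MP_a4c1f4_lc.Dbl

section
variable {X K : Type} [Fintype X] [DecidableEq X] [Nonempty X] [Fintype K] [DecidableEq K]
  [Nonempty K]

private theorem Nv_cons_eq (sg : K → X) (cl : X → List X) (z : K) (l : List K) :
    lC sg cl (z :: l) (cl (sg z)) = z :: lC sg cl l (cl (sg z)) := by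
  unfold lC
  rw [List.filter_cons_of_pos]
  simp

private theorem Nv_cons_ne (sg : K → X) (cl : X → List X) (z : K) (l : List K) (C : List X)
    (h : C ≠ cl (sg z)) : lC sg cl (z :: l) C = lC sg cl l C := by
  unfold lC
  rw [List.filter_cons_of_neg]
  simp only [decide_eq_true_eq]
  exact fun h' => h h'.symm

private theorem Nv_mem (sg : K → X) (cl : X → List X) (l : List K) (C : List X) :
    ∀ x ∈ lC sg cl l C, cl (sg x) = C := by
  intro x hx
  unfold lC at hx
  rw [List.mem_filter] at hx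
  simpa using hx.2

private theorem Nv_memA (sg : K → X) (cl : X → List X) (C : List X) (v : K) :
    v ∈ aC sg cl C ↔ cl (sg v) = C := by
  unfold aC
  simp

private theorem Nv_basic (h1 : UrProp) (h2 : FfProp) (B : Blk X) (sg : K → X) (Lam : ℝ) (N : ℕ)
    (D : X → X → ℝ) (cl : X → List X) (G : ℕ → X → ℕ) (q : ℕ → Equiv.Perm X)
    (hOK : B.OK Lam N D cl) (hG : ∀ i z, G i z ≤ N) (l : List K) (C : List X)
    (hl : (lC sg cl l C).length ≤ (aC sg cl C).card) :
    B.US sg Lam N cl G l C ⊆ aC sg cl C ∧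
    (B.US sg Lam N cl G l C).card + B.dr sg Lam N cl G l C = (lC sg cl l C).length ∧
    B.VS sg Lam N cl G q l C ⊆ aC sg cl C ∧
    (B.VS sg Lam N cl G q l C).card = (lC sg cl l C).length := by
  obtain ⟨ha, hb, -⟩ := (h1 X K B sg Lam N D cl G C hOK hG).1 (lC sg cl l C)
    (Nv_mem sg cl l C) (hl.trans (Finset.card_le_univ _))
  have hsub : B.US sg Lam N cl G l C ⊆ aC sg cl C := by
    intro v hv
    rw [Nv_memA]
    exact ha v hv
  have hcard : (B.US sg Lam N cl G l C).card + B.dr sg Lam N cl G l C =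
      (lC sg cl l C).length := by
    have h3 : (B.US sg Lam N cl G l C).card ≤ (lC sg cl l C).length := hb
    unfold Blk.dr
    omega
  obtain ⟨-, hc, hd⟩ := (h2 X K sg q (aC sg cl C) (B.US sg Lam N cl G l C) hsub).1
    (B.dr sg Lam N cl G l C) (by omega)
  refine ⟨hsub, hcard, hc, ?_⟩
  unfold Blk.VS
  rw [hd, hcard]

private theorem Nv_step (h1 : UrProp) (h2 : FfProp) (B : Blk X) (sg : K → X) (Lam : ℝ) (N : ℕ)
    (D : X → X → ℝ) (cl : X → List X) (G : ℕ → X → ℕ) (q : ℕ → Equiv.Perm X)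
    (hOK : B.OK Lam N D cl) (hG : ∀ i z, G i z ≤ N) (z : K) (l : List K)
    (hl : (lC sg cl (z :: l) (cl (sg z))).length ≤ (aC sg cl (cl (sg z))).card) :
    ∃ w ∈ aC sg cl (cl (sg z)), w ∉ B.VS sg Lam N cl G q l (cl (sg z)) ∧
      B.VS sg Lam N cl G q (z :: l) (cl (sg z)) =
        insert w (B.VS sg Lam N cl G q l (cl (sg z))) := by
  have hcons := Nv_cons_eq sg cl z l
  rw [hcons, List.length_cons] at hl
  have hl' : (lC sg cl l (cl (sg z))).length ≤ (aC sg cl (cl (sg z))).card := by omega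
  obtain ⟨hs, hc, -, -⟩ := Nv_basic h1 h2 B sg Lam N D cl G q hOK hG l (cl (sg z)) hl'
  have hmem : ∀ x ∈ z :: lC sg cl l (cl (sg z)), cl (sg x) = cl (sg z) := by
    intro x hx
    rcases List.mem_cons.1 hx with rfl | hx
    · rfl
    · exact Nv_mem sg cl l _ x hx
  have hK : (lC sg cl l (cl (sg z))).length + 1 ≤ Fintype.card K :=
    hl.trans (Finset.card_le_univ _)
  obtain ⟨hy, hd⟩ := (h1 X K B sg Lam N D cl G (cl (sg z)) hOK hG).2 z
    (lC sg cl l (cl (sg z))) hmem hK
  obtain ⟨-, hF2, hF3⟩ := h2 X K sg q (aC sg cl (cl (sg z)))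
    (B.US sg Lam N cl G l (cl (sg z))) hs
  have hUS : B.US sg Lam N cl G (z :: l) (cl (sg z)) =
      usedR (B.c sg Lam N cl G) (z :: lC sg cl l (cl (sg z))) := by
    unfold Blk.US
    rw [hcons]
  have hdr : B.dr sg Lam N cl G (z :: l) (cl (sg z)) =
      (lC sg cl l (cl (sg z))).length + 1 -
        (usedR (B.c sg Lam N cl G) (z :: lC sg cl l (cl (sg z)))).card := by
    unfold Blk.dr
    rw [hUS, hcons, List.length_cons]
  have hVS : B.VS sg Lam N cl G q (z :: l) (cl (sg z)) =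
      FF sg q (aC sg cl (cl (sg z)))
        (usedR (B.c sg Lam N cl G) (z :: lC sg cl l (cl (sg z))))
        ((lC sg cl l (cl (sg z))).length + 1 -
          (usedR (B.c sg Lam N cl G) (z :: lC sg cl l (cl (sg z)))).card) := by
    unfold Blk.VS
    rw [hUS, hdr]
  have hVS0 : B.VS sg Lam N cl G q l (cl (sg z)) =
      FF sg q (aC sg cl (cl (sg z))) (B.US sg Lam N cl G l (cl (sg z)))
        (B.dr sg Lam N cl G l (cl (sg z))) := rfl
  rcases hsv : sv (B.c sg Lam N cl G) z (lC sg cl l (cl (sg z))) with y | d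
  · obtain ⟨hy1, hy2, hy3⟩ := hy y hsv
    have hy2' : y ∉ B.US sg Lam N cl G l (cl (sg z)) := hy2
    have hy3' : usedR (B.c sg Lam N cl G) (z :: lC sg cl l (cl (sg z))) =
        insert y (B.US sg Lam N cl G l (cl (sg z))) := hy3
    have hyA : y ∈ aC sg cl (cl (sg z)) := (Nv_memA sg cl _ y).2 hy1
    have hlt : (B.US sg Lam N cl G l (cl (sg z))).card + 1 +
        B.dr sg Lam N cl G l (cl (sg z)) ≤ (aC sg cl (cl (sg z))).card := by omega
    obtain ⟨w, hwA, hw1, hw2⟩ := hF2 y (B.dr sg Lam N cl G l (cl (sg z))) hyA hy2' hlt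
    refine ⟨w, hwA, ?_, ?_⟩
    · rw [hVS0]
      exact hw1
    · have hn : (lC sg cl l (cl (sg z))).length + 1 -
          (insert y (B.US sg Lam N cl G l (cl (sg z)))).card =
          B.dr sg Lam N cl G l (cl (sg z)) := by
        rw [Finset.card_insert_of_notMem hy2']
        omega
      rw [hVS, hy3', hn, hVS0]
      exact hw2
  · have hd3 : usedR (B.c sg Lam N cl G) (z :: lC sg cl l (cl (sg z))) =
        B.US sg Lam N cl G l (cl (sg z)) := hd d hsv
    have hlt : (B.US sg Lam N cl G l (cl (sg z))).card +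
        B.dr sg Lam N cl G l (cl (sg z)) + 1 ≤ (aC sg cl (cl (sg z))).card := by omega
    obtain ⟨w, hwA, hw1, hw2⟩ := hF3 (B.dr sg Lam N cl G l (cl (sg z))) hlt
    refine ⟨w, hwA, ?_, ?_⟩
    · rw [hVS0]
      exact hw1
    · have hn : (lC sg cl l (cl (sg z))).length + 1 -
          (B.US sg Lam N cl G l (cl (sg z))).card =
          B.dr sg Lam N cl G l (cl (sg z)) + 1 := by omega
      rw [hVS, hd3, hn, hVS0]
      exact hw2

end

theorem nvProp (h1 : UrProp) (h2 : FfProp) : NvProp := by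
  intro X K _ _ _ _ _ _ B sg Lam N D cl G q hOK hG
  refine ⟨?_, ?_, ?_⟩
  · intro l C hl
    exact (Nv_basic h1 h2 B sg Lam N D cl G q hOK hG l C hl).2.2
  · intro z l hl
    obtain ⟨w, hwA, hw1, hw2⟩ := Nv_step h1 h2 B sg Lam N D cl G q hOK hG z l hl
    have hex : ∃ v, v ∈ B.VS sg Lam N cl G q (z :: l) (cl (sg z)) ∧
        v ∉ B.VS sg Lam N cl G q l (cl (sg z)) := by
      refine ⟨w, ?_, hw1⟩
      rw [hw2]
      exact Finset.mem_insert_self _ _
    have hnv : B.nv sg Lam N cl G q z l = w := by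
      have h3 : B.nv sg Lam N cl G q z l = hex.choose := by
        unfold Blk.nv
        rw [dif_pos hex]
      have h4 := hex.choose_spec
      rw [← h3, hw2, Finset.mem_insert] at h4
      rcases h4.1 with h5 | h5
      · exact h5
      · exact absurd h5 h4.2
    rw [hnv]
    exact ⟨(Nv_memA sg cl _ w).1 hwA, hw1, hw2⟩
  · intro z l C hC
    have h3 := Nv_cons_ne sg cl z l C hC
    unfold Blk.VS Blk.dr Blk.US
    rw [h3]

end Pool.Agent.AM.C
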