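import Pool.Agent.Lib.AM.SpecC

set_option linter.all false

/-!
# AM, part C, module Ow0 (helper64): points at distance zero have the same owner
-/

namespace Pool.Agent.AM.C

open Finset Pool.Agent.MP_a4c1f4_lc Pool.Agent.MP_a4c1f4_lc.Dbl

private theorem Ow0_own {X : Type} [Fintype X] {dp : X → X → ℝ} (hpm : PM dp) (eta : ℝ)
    (g : X → ℕ) {x y : X} (hxy : dp x y = 0) (z : X) (h : Own dp eta g x z) :
    Own dp eta g y z := by
  have he : ∀ w, dp y w = dp x w := by
    intro w
    have h1 := hpm.tri x y w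
    have h2 := hpm.tri y x w
    rw [hpm.symm y x] at h2
    linarith
  obtain ⟨x0, hx0, hm⟩ := h
  refine ⟨x0, hx0, fun x' => ?_⟩
  rw [he x', he x0]
  exact hm x'

theorem ow0Prop (h1 : FoAProp) : Ow0Prop := by
  intro X _ _ _ B Lam N D cl G hOK i hi x y hxy
  have hpm := hOK.pm i hi
  have hmu := hOK.mu i hi
  have hL : 0 < Lam := by linarith [hOK.hLam]
  have hN : (0 : ℝ) < N := lt_of_lt_of_le (by positivity) hOK.hN
  have heta : 0 < B.eta Lam N i := by
    unfold Blk.eta
    positivity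
  have hA := (h1 X (B.dp i) (B.eta Lam N i) (G i) hpm heta).1
  have h2 : Own (B.dp i) (B.eta Lam N i) (G i) x (B.ow Lam N G i x) := (hA x _).2 rfl
  have h3 := Ow0_own hpm (B.eta Lam N i) (G i) hxy _ h2
  exact ((hA y _).1 h3).symm

end Pool.Agent.AM.C
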