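import Mathlib
import Pool.Agent.Lib.AM.SpecC

set_option linter.all false

/-!
# AM, C/Pa: first part of the right side of `PsProp`
-/

namespace Pool.Agent.AM.C

open Finset Pool.Agent.MP_a4c1f4_lc Pool.Agent.MP_a4c1f4_lc.Dbl

private theorem Pa_psum_add {S : Type} (f g : S → List S → ℝ) (l : List S) :
    psum (fun x l => f x l + g x l) l = psum f l + psum g l := by
  induction l with
  | nil => simp [psum]
  | cons x l ih => simp only [psum, ih]; ring

private theorem Pa_psum_mul {S : Type} (a : ℝ) (f : S → List S → ℝ) (l : List S) :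
    psum (fun x l => a * f x l) l = a * psum f l := by
  induction l with
  | nil => simp [psum]
  | cons x l ih => simp only [psum, ih]; ring

theorem paProp (h1 : XzProp) (h2 : HdProp) (h3 : SpProp) (h4 : SvProp) (h5 : EeProp) :
    PaProp := by
  intro X K _ _ _ _ _ _ B sg Lam N D cl tl hOK hF hI
  obtain ⟨s1, s2, s3, s4⟩ := h3 X K sg cl
  obtain ⟨e1, e2, e3, e4, e5⟩ := h5 X K B Lam N D cl hOK
  have hstep : (fun (G : ℕ → X → ℕ) (q : ℕ → Equiv.Perm X) => psum (fun z l =>
      B.arr sg Lam N cl G z (lC sg cl l (cl (sg z))) +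
        (Lam + 1) * (ind (B.Dr sg Lam N cl G z l) + ind (B.Hit sg Lam N cl G q z l)))
          (tl.map Prod.fst)) = fun G q => ∑ C ∈ univ.image cl,
            (psum (fun z l => B.arr sg Lam N cl G z l) ((tC sg cl tl C).map Prod.fst) +
              (Lam + 1) * psum (fun z l => ind (B.Dr sg Lam N cl G z l) +
                ind (B.Hit sg Lam N cl G q z l)) ((tC sg cl tl C).map Prod.fst)) := by
    funext G q
    have hf : (fun (z : K) (l : List K) =>
        B.arr sg Lam N cl G z (lC sg cl l (cl (sg z))) +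
        (Lam + 1) * (ind (B.Dr sg Lam N cl G z l) + ind (B.Hit sg Lam N cl G q z l))) =
        fun z l => (fun (z : K) (l : List K) => B.arr sg Lam N cl G z l +
        (Lam + 1) * (ind (B.Dr sg Lam N cl G z l) + ind (B.Hit sg Lam N cl G q z l)))
          z (lC sg cl l (cl (sg z))) := by
      funext z l
      obtain ⟨_, _, a, b⟩ := h4 X K B sg Lam N cl G q z l
      show _ = B.arr sg Lam N cl G z (lC sg cl l (cl (sg z))) +
        (Lam + 1) * (ind (B.Dr sg Lam N cl G z (lC sg cl l (cl (sg z)))) +
          ind (B.Hit sg Lam N cl G q z (lC sg cl l (cl (sg z)))))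
      rw [propext a, propext b]
    rw [hf]
    refine (s1 (fun (z : K) (l : List K) => B.arr sg Lam N cl G z l +
        (Lam + 1) * (ind (B.Dr sg Lam N cl G z l) + ind (B.Hit sg Lam N cl G q z l)))
          (tl.map Prod.fst)).trans ?_
    refine sum_congr rfl fun C _ => ?_
    rw [s3, Pa_psum_add, Pa_psum_mul]
  rw [hstep, e5]
  have hC : ∀ C ∈ univ.image cl, B.EE K Lam N (fun G q =>
      (psum (fun z l => B.arr sg Lam N cl G z l) ((tC sg cl tl C).map Prod.fst) +
        (Lam + 1) * psum (fun z l => ind (B.Dr sg Lam N cl G z l) +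
          ind (B.Hit sg Lam N cl G q z l)) ((tC sg cl tl C).map Prod.fst))) ≤
      (200 / B.mu 0 + (Lam + 1) * (2 + Real.log (Fintype.card X)) / B.R) *
        rcs sg B.W B.R (tC sg cl tl C) := by
    intro C _
    have hmem : ∀ t ∈ tC sg cl tl C, t ∈ tl ∧ cl (sg t.1) = C := by
      intro t ht
      have h := List.mem_filter.1 ht
      exact ⟨h.1, by simpa using h.2⟩
    have c1 : ∀ t ∈ tC sg cl tl C, cl (sg t.1) = C := fun t ht => (hmem t ht).2
    have c2 : ∀ t ∈ tC sg cl tl C, ∀ o, t.2 = some o → cl (sg t.1) = cl (sg o) :=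
      fun t ht => hI.good t (hmem t ht).1
    have hsub : (tC sg cl tl C).Sublist tl := List.filter_sublist
    have c3 : ((tC sg cl tl C).filterMap Prod.snd).Nodup :=
      hI.nd.sublist (hsub.filterMap _)
    have c4 : (tC sg cl tl C).length ≤ Fintype.card K := hsub.length_le.trans hI.len
    have c5 : (tC sg cl tl C).length ≤ (aC sg cl C).card := by
      have h := hI.fits C
      rw [← s3, List.length_map] at h
      exact h
    have x := (h1 X K B sg Lam N D cl C (tC sg cl tl C) hOK hF c1 c2 c3 c4).2.2.1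
    have y := h2 X K B sg Lam N D cl C (tC sg cl tl C) hOK hF c1 c2 c3 c4 c5
    rw [← e4] at x
    rw [e2, e3]
    have hL : 0 ≤ Lam + 1 := by
      have := hOK.hLam
      linarith
    have z := mul_le_mul_of_nonneg_left y hL
    have hr : (200 / B.mu 0 + (Lam + 1) * (2 + Real.log (Fintype.card X)) / B.R) *
        rcs sg B.W B.R (tC sg cl tl C) =
        200 / B.mu 0 * rcs sg B.W B.R (tC sg cl tl C) +
          (Lam + 1) * ((2 + Real.log (Fintype.card X)) / B.R *
            rcs sg B.W B.R (tC sg cl tl C)) := by ring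
    rw [hr]
    exact add_le_add x z
  refine (sum_le_sum hC).trans (le_of_eq ?_)
  rw [← mul_sum]
  congr 1
  exact (s2 (rc sg B.W B.R) tl).symm

end Pool.Agent.AM.C
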