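import Pool.Agent.Lib.AM.SpecC
import Mathlib.Tactic.Linarith
import Mathlib.Tactic.Ring

set_option linter.all false

/-!
# AM, file C/Ps.lean: the potential after the block, summed over the tokens
-/

namespace Pool.Agent.AM.C

open Finset Pool.Agent.MP_a4c1f4_lc Pool.Agent.MP_a4c1f4_lc.Dbl

private theorem Ps_len {X K : Type} [Fintype X] [DecidableEq X] [Nonempty X] [Fintype K]
    [DecidableEq K] [Nonempty K] (sg : K → X) (cl : X → List X) (z : K) (l : List K)
    (C : List X) : (lC sg cl l C).length ≤ (lC sg cl (z :: l) C).length := by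
  unfold lC
  rw [List.filter_cons]
  split_ifs
  · exact Nat.le_succ _
  · exact le_rfl

private theorem Ps_aux (h1 : PuProp) {X K : Type} [Fintype X] [DecidableEq X] [Nonempty X]
    [Fintype K] [DecidableEq K] [Nonempty K] (B : Blk X) (sg : K → X) (Lam : ℝ) (N : ℕ)
    (D : X → X → ℝ) (cl : X → List X) (G : ℕ → X → ℕ) (q : ℕ → Equiv.Perm X)
    (W' : X → X → ℝ) (R' : ℝ) (hB : B.OK Lam N D cl) (hG : B.Supp N G)
    (hW : ∀ x y, 0 ≤ W' x y) (hR : 0 ≤ R') :
    ∀ tl : List (K × Option K),
    (∀ t ∈ tl, ∀ o, t.2 = some o → cl (sg t.1) = cl (sg o)) →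
    (∀ C, (lC sg cl (tl.map Prod.fst) C).length ≤ (aC sg cl C).card) →
    PiT sg W' R' (B.nth Lam N G) (B.ntl sg Lam N cl G q tl) ≤
      2 * R' * psum (fun z l => B.arr sg Lam N cl G z (lC sg cl l (cl (sg z))) +
        (Lam + 1) * (ind (B.Dr sg Lam N cl G z l) + ind (B.Hit sg Lam N cl G q z l)))
          (tl.map Prod.fst) +
      (tl.map (fun t => match t.2 with
        | none => 2 * R' * B.nth Lam N G (sg t.1)
        | some o => 2 * R' * (ind (B.ow Lam N G 0 (sg t.1) ≠ B.ow Lam N G 0 (sg o)) *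
              B.nth Lam N G (sg t.1)) +
            3 * (ind (D (sg t.1) (sg o) ≤ (Lam + 1) * B.rr 0) * W' (sg t.1) (sg o)) *
              B.nth Lam N G (sg t.1))).sum := by
  intro tl
  induction tl with
  | nil =>
    intro _ _
    simp [PiT, Blk.ntl, psum]
  | cons t tl ih =>
    intro hg hf
    have h2 := ih (fun s hs => hg s (List.mem_cons_of_mem _ hs)) (fun C =>
      (Ps_len sg cl t.1 (tl.map Prod.fst) C).trans (hf C))
    have h3 := h1 X K B sg Lam N D cl G q W' R' t (tl.map Prod.fst) hB hG hW hR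
      (fun o ho => hg t List.mem_cons_self o ho) (hf (cl (sg t.1)))
    have h4 : PiT sg W' R' (B.nth Lam N G) (B.ntl sg Lam N cl G q (t :: tl)) =
        B.nth Lam N G (sg (B.nt sg Lam N cl G q t (tl.map Prod.fst)).1) *
          rc sg W' R' (B.nt sg Lam N cl G q t (tl.map Prod.fst)) +
        PiT sg W' R' (B.nth Lam N G) (B.ntl sg Lam N cl G q tl) := by
      simp only [PiT, Blk.ntl, List.map_cons, List.sum_cons]
    rw [h4, List.map_cons, List.map_cons, List.sum_cons]
    refine (add_le_add h3 h2).trans (le_of_eq ?_)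
    clear h2 h3 h4 hg hf ih
    obtain ⟨z, _ | o⟩ := t
    · simp only [psum]
      ring
    · simp only [psum]
      ring

/-- The potential after the block. -/
theorem psProp (h1 : PuProp) : PsProp := by
  intro X K _ _ _ _ _ _ B sg Lam N D cl G q W' R' tl hB hG hW hR hI
  exact Ps_aux h1 B sg Lam N D cl G q W' R' hB hG hW hR tl hI.good hI.fits

end Pool.Agent.AM.C
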