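import Pool.Agent.Lib.AM.SpecC

set_option linter.all false

/-! AM, module C/Pt: one token of the second part of the potential of the next block. -/

namespace Pool.Agent.AM.C

open Finset Pool.Agent.MP_a4c1f4_lc Pool.Agent.MP_a4c1f4_lc.Dbl

private theorem Pt_W {X : Type} (B : Blk X) (hpm : ∀ i ≤ B.h, PM (B.dp i)) (x y : X) :
    B.dp 0 x y ≤ B.W x y := by
  unfold Blk.W
  exact single_le_sum (f := fun i => B.dp i x y)
    (fun i hi => (hpm i (Nat.lt_succ_iff.1 (mem_range.1 hi))).nonneg x y)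
    (mem_range.2 (Nat.succ_pos _))

theorem ptProp (h1 : CutProp) (h2 : SizeProp) (h3 : Ow0Prop) (h4 : EbProp) : PtProp := by
  intro X K _ _ _ _ _ _ B sg Lam N D cl W' R' t hok hfine hW' hR'
  obtain ⟨z, oo⟩ := t
  have hmu : 0 < B.mu 0 := hok.mu 0 (Nat.zero_le _)
  have hR : 0 < B.R := hok.Rpos
  obtain ⟨-, e2, e3, e4, -⟩ := h4 X B Lam N D cl hok sT
  have hsize : B.E Lam N sT (fun G => B.nth Lam N G (sg z)) ≤ 3 := h2 X B Lam N D cl hok (sg z)
  cases oo with
  | none =>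
    have h5 : B.E Lam N sT (fun G => 2 * R' * B.nth Lam N G (sg z)) =
        2 * R' * B.E Lam N sT (fun G => B.nth Lam N G (sg z)) := e4 _ _
    have h6 : 2 * R' * B.E Lam N sT (fun G => B.nth Lam N G (sg z)) ≤ 2 * R' * 3 :=
      mul_le_mul_of_nonneg_left hsize (by positivity)
    have h7 : R' / B.R * B.R = R' := by field_simp
    have h8 : 0 ≤ R' / B.mu 0 * B.R := by positivity
    show B.E Lam N sT (fun G => 2 * R' * B.nth Lam N G (sg z)) ≤
      (300 * (R' / B.mu 0) + 3 * (R' / B.R)) * (2 * B.R) + 9 * 0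
    rw [h5]
    nlinarith
  | some o =>
    set c1 : ℝ := ind (D (sg z) (sg o) ≤ (Lam + 1) * B.rr 0) * W' (sg z) (sg o) with hc1
    have hc1n : 0 ≤ c1 := mul_nonneg (ind_nonneg _) (hW' _ _)
    show B.E Lam N sT (fun G =>
        2 * R' * (ind (B.ow Lam N G 0 (sg z) ≠ B.ow Lam N G 0 (sg o)) * B.nth Lam N G (sg z)) +
          3 * c1 * B.nth Lam N G (sg z)) ≤
      (300 * (R' / B.mu 0) + 3 * (R' / B.R)) * (3 * B.W (sg z) (sg o)) + 9 * c1
    rw [e3 (fun G => 2 * R' * (ind (B.ow Lam N G 0 (sg z) ≠ B.ow Lam N G 0 (sg o)) *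
      B.nth Lam N G (sg z))) (fun G => 3 * c1 * B.nth Lam N G (sg z)), e4, e4]
    have hW0 : B.dp 0 (sg z) (sg o) ≤ B.W (sg z) (sg o) := Pt_W B hok.pm _ _
    have hd0 : 0 ≤ B.dp 0 (sg z) (sg o) := (hok.pm 0 (Nat.zero_le _)).nonneg _ _
    have hfirst : B.E Lam N sT (fun G =>
        ind (B.ow Lam N G 0 (sg z) ≠ B.ow Lam N G 0 (sg o)) * B.nth Lam N G (sg z)) ≤
        400 / B.mu 0 * B.dp 0 (sg z) (sg o) := by
      rcases hfine.dp (sg z) (sg o) with h5 | h5
      · have h6 : (fun G => ind (B.ow Lam N G 0 (sg z) ≠ B.ow Lam N G 0 (sg o)) *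
            B.nth Lam N G (sg z)) = fun _ => (0 : ℝ) := by
          funext G
          have h7 := h3 X B Lam N D cl G hok 0 (Nat.zero_le _) (sg z) (sg o) h5
          rw [ind_false (by simpa using h7), zero_mul]
        rw [h6, e2, h5]
        simp
      · have h6 : B.E Lam N sT (fun G =>
            ind (B.ow Lam N G 0 (sg z) ≠ B.ow Lam N G 0 (sg o)) * B.nth Lam N G (sg z)) ≤
            200 / B.mu 0 * B.dp 0 (sg z) (sg o) + 200 * (Lam / N) :=
          h1 X B Lam N D cl hok (sg z) (sg o)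
        have h7 : 200 / B.mu 0 * B.dp 0 (sg z) (sg o) = 200 * (B.dp 0 (sg z) (sg o) / B.mu 0) := by
          ring
        have h8 : 400 / B.mu 0 * B.dp 0 (sg z) (sg o) = 400 * (B.dp 0 (sg z) (sg o) / B.mu 0) := by
          ring
        rw [h7] at h6
        rw [h8]
        linarith
    have h9 : 2 * R' * B.E Lam N sT (fun G =>
        ind (B.ow Lam N G 0 (sg z) ≠ B.ow Lam N G 0 (sg o)) * B.nth Lam N G (sg z)) ≤
        2 * R' * (400 / B.mu 0 * B.dp 0 (sg z) (sg o)) :=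
      mul_le_mul_of_nonneg_left hfirst (by positivity)
    have h10 : 3 * c1 * B.E Lam N sT (fun G => B.nth Lam N G (sg z)) ≤ 3 * c1 * 3 :=
      mul_le_mul_of_nonneg_left hsize (by positivity)
    have h11 : 2 * R' * (400 / B.mu 0 * B.dp 0 (sg z) (sg o)) =
        800 * (R' / B.mu 0 * B.dp 0 (sg z) (sg o)) := by ring
    have hq : 0 ≤ R' / B.mu 0 := by positivity
    have h12 : R' / B.mu 0 * B.dp 0 (sg z) (sg o) ≤ R' / B.mu 0 * B.W (sg z) (sg o) :=
      mul_le_mul_of_nonneg_left hW0 hq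
    have h13 : 0 ≤ R' / B.mu 0 * B.W (sg z) (sg o) := mul_nonneg hq (hd0.trans hW0)
    have h14 : 0 ≤ R' / B.R * B.W (sg z) (sg o) := mul_nonneg (by positivity) (hd0.trans hW0)
    have h15 : (300 * (R' / B.mu 0) + 3 * (R' / B.R)) * (3 * B.W (sg z) (sg o)) =
        900 * (R' / B.mu 0 * B.W (sg z) (sg o)) + 9 * (R' / B.R * B.W (sg z) (sg o)) := by ring
    rw [h15]
    linarith

end Pool.Agent.AM.C
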