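import Pool.Agent.Lib.AM.SpecC

set_option linter.all false

/-!
# AM, C/Pu: the value of one new token
-/

namespace Pool.Agent.AM.C

open Finset Pool.Agent.MP_a4c1f4_lc Pool.Agent.MP_a4c1f4_lc.Dbl

section
variable {X K : Type} [Fintype X] [DecidableEq X] [Nonempty X] [Fintype K] [DecidableEq K]
  [Nonempty K]

private theorem Pu_exc_nonneg (B : Blk X) (Lam : ℝ) (N : ℕ) (G : ℕ → X → ℕ) (i : ℕ) (x : X) :
    0 ≤ B.exc Lam N G i x := le_max_left _ _

private theorem Pu_arr_nonneg (B : Blk X) (sg : K → X) (Lam : ℝ) (N : ℕ) (cl : X → List X)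
    (G : ℕ → X → ℕ) (x : K) (l : List K) : 0 ≤ B.arr sg Lam N cl G x l := by
  unfold Blk.arr
  rcases sv (B.c sg Lam N cl G) x l with v | d
  · exact mul_nonneg (ind_nonneg _) (by have := Pu_exc_nonneg B Lam N G 0 (sg v); linarith)
  · exact le_refl _

private theorem Pu_arr (B : Blk X) (sg : K → X) (Lam : ℝ) (N : ℕ) (cl : X → List X)
    (G : ℕ → X → ℕ) (z y : K) (l : List K)
    (h : sv (B.c sg Lam N cl G) z l = Sum.inl y) :
    B.arr sg Lam N cl G z l = ind (B.ow Lam N G 0 (sg y) ≠ B.ow Lam N G 0 (sg z)) *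
      (1 + B.exc Lam N G 0 (sg y)) := by
  unfold Blk.arr
  rw [h]

end

theorem puProp (h1 : NvProp) (h2 : ThProp) : PuProp := by
  intro X K _ _ _ _ _ _ B sg Lam N D cl G q W' R' t l hOK hS hW' hR' hg hfit
  classical
  obtain ⟨z, p⟩ := t
  have hGN : ∀ i z, G i z ≤ N := fun i z => (hS.1 i z).le
  obtain ⟨-, hnv, -⟩ := h1 X K B sg Lam N D cl G q hOK hGN
  obtain ⟨hclv, -, -⟩ := hnv z l hfit
  obtain ⟨-, hTd, -, hTe⟩ := h2 X B Lam N D cl G hOK
  have hexc := hTe hGN 0 (Nat.zero_le _)
  have hth1 : ∀ x, 1 ≤ B.nth Lam N G x := fun x => by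
    have := (hexc x).1
    show 1 ≤ 1 + B.exc Lam N G 0 x
    linarith
  have hthL : ∀ x, B.nth Lam N G x ≤ Lam + 1 := fun x => by
    have := (hexc x).2
    show 1 + B.exc Lam N G 0 x ≤ Lam + 1
    linarith
  have hL : 0 ≤ Lam + 1 := by have := hOK.hLam; linarith
  set v := B.nv sg Lam N cl G q z l with hv
  set aa := B.arr sg Lam N cl G z (lC sg cl l (cl (sg z))) with haa
  have haa0 : 0 ≤ aa := Pu_arr_nonneg B sg Lam N cl G z _
  set iD := ind (B.Dr sg Lam N cl G z l) with hiD
  set iH := ind (B.Hit sg Lam N cl G q z l) with hiH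
  have hiD0 : 0 ≤ iD := ind_nonneg _
  have hiH0 : 0 ≤ iH := ind_nonneg _
  have hfirst : 0 ≤ 2 * R' * (aa + (Lam + 1) * (iD + iH)) := by positivity
  have hsec : 0 ≤ (match p with
        | none => 2 * R' * B.nth Lam N G (sg z)
        | some o => 2 * R' * (ind (B.ow Lam N G 0 (sg z) ≠ B.ow Lam N G 0 (sg o)) *
              B.nth Lam N G (sg z)) +
            3 * (ind (D (sg z) (sg o) ≤ (Lam + 1) * B.rr 0) * W' (sg z) (sg o)) *
              B.nth Lam N G (sg z)) := by
    have h0 : 0 ≤ B.nth Lam N G (sg z) := zero_le_one.trans (hth1 _)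
    cases p with
    | none => exact mul_nonneg (mul_nonneg (by norm_num) hR') h0
    | some o =>
      have h3 := ind_nonneg (B.ow Lam N G 0 (sg z) ≠ B.ow Lam N G 0 (sg o))
      have h4 := ind_nonneg (D (sg z) (sg o) ≤ (Lam + 1) * B.rr 0)
      have h5 := hW' (sg z) (sg o)
      positivity
  by_cases hc : B.ncl Lam N cl G (sg v) = B.ncl Lam N cl G (sg z)
  · -- not relocated
    have hnp : B.np sg Lam N cl G q z l = z := if_pos hc
    cases p with
    | none =>
      have e1 : (B.nt sg Lam N cl G q (z, none) l) = (z, none) := by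
        simp only [Blk.nt, hnp]
      rw [e1]
      show B.nth Lam N G (sg z) * (2 * R') ≤ 2 * R' * (aa + (Lam + 1) * (iD + iH)) +
        2 * R' * B.nth Lam N G (sg z)
      nlinarith
    | some o =>
      by_cases hcc : B.ncl Lam N cl G (sg z) = B.ncl Lam N cl G (sg o)
      · have e1 : (B.nt sg Lam N cl G q (z, some o) l) = (z, some o) := by
          simp only [Blk.nt, hnp]
          rw [if_pos ⟨trivial, hcc⟩]
        rw [e1]
        have how : B.ow Lam N G 0 (sg z) = B.ow Lam N G 0 (sg o) := (List.cons.inj hcc).1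
        have hDle : D (sg z) (sg o) ≤ (Lam + 1) * B.rr 0 := by
          have h3 := hTd hS 0 (Nat.zero_le _) _ _ how
          have h4 : B.rr 0 * (1 + B.exc Lam N G 0 (sg z)) ≤ B.rr 0 * (Lam + 1) :=
            mul_le_mul_of_nonneg_left (hthL (sg z)) (hOK.rr 0 (Nat.zero_le _)).le
          linarith
        show B.nth Lam N G (sg z) * (3 * W' (sg z) (sg o)) ≤
          2 * R' * (aa + (Lam + 1) * (iD + iH)) +
          (2 * R' * (ind (B.ow Lam N G 0 (sg z) ≠ B.ow Lam N G 0 (sg o)) *
              B.nth Lam N G (sg z)) +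
            3 * (ind (D (sg z) (sg o) ≤ (Lam + 1) * B.rr 0) * W' (sg z) (sg o)) *
              B.nth Lam N G (sg z))
        rw [ind_true hDle]
        have h0 : 0 ≤ B.nth Lam N G (sg z) := zero_le_one.trans (hth1 _)
        have h5 : 0 ≤ 2 * R' * (ind (B.ow Lam N G 0 (sg z) ≠ B.ow Lam N G 0 (sg o)) *
              B.nth Lam N G (sg z)) :=
          mul_nonneg (mul_nonneg (by norm_num) hR') (mul_nonneg (ind_nonneg _) h0)
        have h6 : B.nth Lam N G (sg z) * (3 * W' (sg z) (sg o)) =
          3 * (1 * W' (sg z) (sg o)) * B.nth Lam N G (sg z) := by ring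
        rw [h6]
        linarith
      · have e1 : (B.nt sg Lam N cl G q (z, some o) l) = (z, none) := by
          simp only [Blk.nt, hnp]
          rw [if_neg (fun h => hcc h.2)]
        rw [e1]
        have how : B.ow Lam N G 0 (sg z) ≠ B.ow Lam N G 0 (sg o) := fun h => hcc (by
          show B.ow Lam N G 0 (sg z) :: cl (sg z) = B.ow Lam N G 0 (sg o) :: cl (sg o)
          rw [h, hg o rfl])
        show B.nth Lam N G (sg z) * (2 * R') ≤
          2 * R' * (aa + (Lam + 1) * (iD + iH)) +
          (2 * R' * (ind (B.ow Lam N G 0 (sg z) ≠ B.ow Lam N G 0 (sg o)) *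
              B.nth Lam N G (sg z)) +
            3 * (ind (D (sg z) (sg o) ≤ (Lam + 1) * B.rr 0) * W' (sg z) (sg o)) *
              B.nth Lam N G (sg z))
        rw [ind_true how]
        have h0 : 0 ≤ B.nth Lam N G (sg z) := zero_le_one.trans (hth1 _)
        have h5 : 0 ≤ 3 * (ind (D (sg z) (sg o) ≤ (Lam + 1) * B.rr 0) * W' (sg z) (sg o)) *
              B.nth Lam N G (sg z) :=
          mul_nonneg (mul_nonneg (by norm_num) (mul_nonneg (ind_nonneg _) (hW' _ _))) h0
        have h6 : B.nth Lam N G (sg z) * (2 * R') =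
          2 * R' * (1 * B.nth Lam N G (sg z)) := by ring
        rw [h6]
        linarith
  · -- relocated
    have hnp : B.np sg Lam N cl G q z l = v := if_neg hc
    have hvz : v ≠ z := fun h => hc (by rw [h])
    have e1 : (B.nt sg Lam N cl G q (z, p) l) = (v, none) := by
      cases p with
      | none => simp only [Blk.nt, hnp]
      | some o =>
        simp only [Blk.nt, hnp]
        rw [if_neg (fun h => hvz h.1)]
    rw [e1]
    have how : B.ow Lam N G 0 (sg v) ≠ B.ow Lam N G 0 (sg z) := fun h => hc (by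
      show B.ow Lam N G 0 (sg v) :: cl (sg v) = B.ow Lam N G 0 (sg z) :: cl (sg z)
      rw [h, hclv])
    have hmain : B.nth Lam N G (sg v) ≤ aa + (Lam + 1) * (iD + iH) := by
      rcases hs : B.svC sg Lam N cl G z l with y | d
      · by_cases hy : sg v = sg y
        · have h3 : aa = ind (B.ow Lam N G 0 (sg y) ≠ B.ow Lam N G 0 (sg z)) *
            (1 + B.exc Lam N G 0 (sg y)) := Pu_arr B sg Lam N cl G z y _ hs
          rw [← hy, ind_true how, one_mul] at h3
          have h4 : 0 ≤ (Lam + 1) * (iD + iH) := by positivity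
          rw [h3]
          show 1 + B.exc Lam N G 0 (sg v) ≤ 1 + B.exc Lam N G 0 (sg v) + (Lam + 1) * (iD + iH)
          linarith
        · have h3 : iH = 1 := ind_true ⟨y, hs, hy⟩
          have h4 := hthL (sg v)
          rw [h3]
          nlinarith
      · have h3 : iD = 1 := ind_true ⟨d, hs⟩
        have h4 := hthL (sg v)
        rw [h3]
        nlinarith
    show B.nth Lam N G (sg v) * (2 * R') ≤ _
    have h7 : B.nth Lam N G (sg v) * (2 * R') ≤ 2 * R' * (aa + (Lam + 1) * (iD + iH)) := by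
      rw [mul_comm]
      exact mul_le_mul_of_nonneg_left hmain (by linarith)
    exact h7.trans (le_add_of_nonneg_right hsec)

end Pool.Agent.AM.C
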