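import Pool.Agent.Lib.AM.SpecC

set_option linter.all false

/-!
Rf (the reference matching), module of the project AM (MP_a4c1f4_lc).
-/

namespace Pool.Agent.AM.C

open Finset Pool.Agent.MP_a4c1f4_lc Pool.Agent.MP_a4c1f4_lc.Dbl

private theorem Rf_cons {T : Type} (c : T → T → ℝ) (x y : T) (l τ : List T) :
    acost c (x :: l) (y :: τ) = c x y + acost c l τ := by
  unfold acost
  rw [List.zipWith_cons_cons, List.sum_cons]

private theorem Rf_nonneg {T : Type} (c : T → T → ℝ) (hc : ∀ r s, 0 ≤ c r s) :
    ∀ l τ : List T, 0 ≤ acost c l τ := by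
  intro l
  induction l with
  | nil => intro τ; simp [acost]
  | cons x l ih =>
    intro τ
    cases τ with
    | nil => simp [acost]
    | cons y τ =>
      rw [Rf_cons]
      exact add_nonneg (hc _ _) (ih τ)

private theorem Rf_dummy {K : Type} [Fintype K] (τ : List (K ⊕ K)) (h : τ.length < Fintype.card K) :
    ∃ d : K, (Sum.inr d : K ⊕ K) ∉ τ := by
  classical
  by_contra hc
  have hc' : ∀ d : K, (Sum.inr d : K ⊕ K) ∈ τ := by
    intro d
    by_contra h0
    exact hc ⟨d, h0⟩
  have h1 : (Finset.univ.map ⟨(Sum.inr : K → K ⊕ K), Sum.inr_injective⟩) ⊆ τ.toFinset := by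
    intro y hy
    obtain ⟨d, -, rfl⟩ := Finset.mem_map.1 hy
    exact List.mem_toFinset.2 (hc' d)
  have h2 := Finset.card_le_card h1
  rw [Finset.card_map, Finset.card_univ] at h2
  have h3 := List.toFinset_card_le τ
  omega

theorem rfProp (h1 : CoProp) (h2 : OptBasicProp) : RfProp := by
  intro X K _ _ _ _ _ _ B sg Lam N D cl G tl hOK hG hgood hnd hlen
  obtain ⟨hW, hpot, hsame, hdiff, hdum, hc0⟩ := h1 X K B sg Lam N D cl G hOK hG
  have hR := hOK.Rpos
  have key : ∀ tl : List (K × Option K), (∀ t ∈ tl, ∀ o, t.2 = some o → cl (sg t.1) = cl (sg o)) →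
      (tl.filterMap Prod.snd).Nodup → tl.length ≤ Fintype.card K →
      ∃ τ : List (K ⊕ K), Adm ((tl.map Prod.fst).map Sum.inl) τ ∧
        (∀ o, (Sum.inl o : K ⊕ K) ∈ τ → o ∈ tl.filterMap Prod.snd) ∧
        acost (B.c sg Lam N cl G) ((tl.map Prod.fst).map Sum.inl) τ ≤ rcs sg B.W B.R tl := by
    intro tl
    induction tl with
    | nil =>
      intro _ _ _
      exact ⟨[], ⟨rfl, List.nodup_nil⟩, fun o ho => absurd ho (List.not_mem_nil), by simp [acost, rcs]⟩
    | cons t tl ih =>
      intro hg hn hl
      obtain ⟨x, y⟩ := t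
      rw [List.length_cons] at hl
      have hg' : ∀ t ∈ tl, ∀ o, t.2 = some o → cl (sg t.1) = cl (sg o) :=
        fun t ht => hg t (List.mem_cons_of_mem _ ht)
      cases y with
      | none =>
        have hf : ((x, (none : Option K)) :: tl).filterMap Prod.snd = tl.filterMap Prod.snd := by
          simp
        rw [hf] at hn ⊢
        obtain ⟨τ, h3, h4, h5⟩ := ih hg' hn (by omega)
        have hlτ : τ.length = tl.length := by
          rw [h3.1]; simp
        obtain ⟨d, hd⟩ := Rf_dummy τ (by omega)
        refine ⟨Sum.inr d :: τ, ⟨by simp [hlτ], List.nodup_cons.2 ⟨hd, h3.2⟩⟩, ?_, ?_⟩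
        · intro o ho
          rcases List.mem_cons.1 ho with h6 | h6
          · exact absurd h6 (by simp)
          · exact h4 o h6
        · rw [List.map_cons, List.map_cons, Rf_cons]
          have h7 := (hdum x d).2
          have h8 : rcs sg B.W B.R ((x, none) :: tl) = 2 * B.R + rcs sg B.W B.R tl := by
            unfold rcs
            rw [List.map_cons, List.sum_cons]
            rfl
          rw [h8]
          have h9 : B.c sg Lam N cl G (Sum.inl ((x, (none : Option K)).1)) (Sum.inr d) ≤ 3 / 2 * B.R := h7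
          linarith
      | some o =>
        have hf : ((x, some o) :: tl).filterMap Prod.snd = o :: tl.filterMap Prod.snd := by
          simp
        rw [hf] at hn ⊢
        obtain ⟨hn1, hn2⟩ := List.nodup_cons.1 hn
        obtain ⟨τ, h3, h4, h5⟩ := ih hg' hn2 (by omega)
        have hlτ : τ.length = tl.length := by
          rw [h3.1]; simp
        have ho : (Sum.inl o : K ⊕ K) ∉ τ := fun h => hn1 (h4 o h)
        refine ⟨Sum.inl o :: τ, ⟨by simp [hlτ], List.nodup_cons.2 ⟨ho, h3.2⟩⟩, ?_, ?_⟩
        · intro o' ho'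
          rcases List.mem_cons.1 ho' with h6 | h6
          · rw [Sum.inl.inj h6]
            exact List.mem_cons_self
          · exact List.mem_cons_of_mem _ (h4 o' h6)
        · rw [List.map_cons, List.map_cons, Rf_cons]
          have hcl : cl (sg x) = cl (sg o) := hg (x, some o) List.mem_cons_self o rfl
          have h7 := (hsame x o hcl).2
          have h8 : rcs sg B.W B.R ((x, some o) :: tl) = 3 * B.W (sg x) (sg o) + rcs sg B.W B.R tl := by
            unfold rcs
            rw [List.map_cons, List.sum_cons]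
            rfl
          rw [h8]
          have h9 : B.c sg Lam N cl G (Sum.inl ((x, some o).1)) (Sum.inl o) ≤ 3 * B.W (sg x) (sg o) := h7
          linarith
  have hO := h2 (K ⊕ K) (B.c sg Lam N cl G) ((tl.map Prod.fst).map Sum.inl)
  have hcard : ((tl.map Prod.fst).map (Sum.inl : K → K ⊕ K)).length ≤ Fintype.card (K ⊕ K) := by
    rw [List.length_map, List.length_map, Fintype.card_sum]
    omega
  constructor
  · obtain ⟨τ, -, h4⟩ := hO.2 hcard
    rw [← h4]
    exact Rf_nonneg _ hc0 _ _
  · obtain ⟨τ, h3, -, h5⟩ := key tl hgood hnd hlen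
    exact (hO.1 τ h3).trans h5

end Pool.Agent.AM.C
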