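import Mathlib
import Pool.Agent.Lib.AM.SpecC

set_option linter.all false

/-!
# AM, part C: splitting the sums over the clusters
-/

namespace Pool.Agent.AM.C

open Finset Pool.Agent.MP_a4c1f4_lc Pool.Agent.MP_a4c1f4_lc.Dbl

private theorem Sp_lC_pos {X K : Type} [DecidableEq X] (sg : K → X) (cl : X → List X) (z : K) (l : List K)
    (C : List X) (h : cl (sg z) = C) : lC sg cl (z :: l) C = z :: lC sg cl l C := by
  unfold lC
  exact List.filter_cons_of_pos (decide_eq_true h)

private theorem Sp_lC_neg {X K : Type} [DecidableEq X] (sg : K → X) (cl : X → List X) (z : K) (l : List K)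
    (C : List X) (h : cl (sg z) ≠ C) : lC sg cl (z :: l) C = lC sg cl l C := by
  unfold lC
  exact List.filter_cons_of_neg (by simpa using h)

private theorem Sp_tC_pos {X K : Type} [DecidableEq X] (sg : K → X) (cl : X → List X) (t : K × Option K)
    (tl : List (K × Option K)) (C : List X) (h : cl (sg t.1) = C) :
    tC sg cl (t :: tl) C = t :: tC sg cl tl C := by
  unfold tC
  exact List.filter_cons_of_pos (decide_eq_true h)

private theorem Sp_tC_neg {X K : Type} [DecidableEq X] (sg : K → X) (cl : X → List X) (t : K × Option K)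
    (tl : List (K × Option K)) (C : List X) (h : cl (sg t.1) ≠ C) :
    tC sg cl (t :: tl) C = tC sg cl tl C := by
  unfold tC
  exact List.filter_cons_of_neg (by simpa using h)

/-- Adding a term at one label. -/
private theorem Sp_add {X : Type} [Fintype X] [DecidableEq X] (cl : X → List X) (x : X)
    (u v : List X → ℝ) (a : ℝ) (h1 : v (cl x) = u (cl x) + a)
    (h2 : ∀ C, cl x ≠ C → v C = u C) :
    (∑ C ∈ univ.image cl, u C) + a = ∑ C ∈ univ.image cl, v C := by
  have hm : cl x ∈ univ.image cl := mem_image_of_mem cl (mem_univ x)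
  rw [← Finset.add_sum_erase _ u hm, ← Finset.add_sum_erase _ v hm, h1]
  have h3 : ∑ C ∈ (univ.image cl).erase (cl x), v C = ∑ C ∈ (univ.image cl).erase (cl x), u C :=
    Finset.sum_congr rfl fun C hC => h2 C (ne_of_mem_erase hC).symm
  rw [h3]
  ring

theorem spProp : SpProp := by
  intro X K _ _ _ _ _ _ sg cl
  refine ⟨?_, ?_, ?_, ?_⟩
  · intro f L
    induction L with
    | nil =>
      refine (Finset.sum_eq_zero fun C _ => ?_).symm
      rfl
    | cons z L ih =>
      show psum _ L + f z (lC sg cl L (cl (sg z))) = _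
      rw [ih]
      refine Sp_add cl (sg z) _ _ _ ?_ ?_
      · show psum f (lC sg cl (z :: L) (cl (sg z))) = _
        rw [Sp_lC_pos sg cl z L _ rfl]
        rfl
      · intro C hC
        show psum f (lC sg cl (z :: L) C) = _
        rw [Sp_lC_neg sg cl z L _ hC]
  · intro f tl
    induction tl with
    | nil =>
      refine (Finset.sum_eq_zero fun C _ => ?_).symm
      rfl
    | cons t tl ih =>
      rw [List.map_cons, List.sum_cons, ih, add_comm]
      refine Sp_add cl (sg t.1) _ _ _ ?_ ?_
      · show ((tC sg cl (t :: tl) (cl (sg t.1))).map f).sum = _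
        rw [Sp_tC_pos sg cl t tl _ rfl, List.map_cons, List.sum_cons, add_comm]
      · intro C hC
        show ((tC sg cl (t :: tl) C).map f).sum = _
        rw [Sp_tC_neg sg cl t tl _ hC]
  · intro tl C
    induction tl with
    | nil => rfl
    | cons t tl ih =>
      rw [List.map_cons]
      by_cases h : cl (sg t.1) = C
      · rw [Sp_tC_pos sg cl t tl C h, Sp_lC_pos sg cl t.1 _ C h, List.map_cons, ih]
      · rw [Sp_tC_neg sg cl t tl C h, Sp_lC_neg sg cl t.1 _ C h, ih]
  · intro l C
    unfold lC
    rw [List.filter_filter]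
    simp

end Pool.Agent.AM.C
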