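import Pool.Agent.Lib.AM.SpecC

set_option linter.all false

/-!
# AM, file C/Sv: the served copy of a request depends only on the list of its cluster
-/

namespace Pool.Agent.AM.C

open Finset Pool.Agent.MP_a4c1f4_lc Pool.Agent.MP_a4c1f4_lc.Dbl

private theorem Sv_VS {X K : Type} [Fintype X] [DecidableEq X] [Nonempty X] [Fintype K]
    [DecidableEq K] [Nonempty K] (B : Blk X) (sg : K → X) (Lam : ℝ) (N : ℕ) (cl : X → List X)
    (G : ℕ → X → ℕ) (q : ℕ → Equiv.Perm X) (C : List X) (l₁ l₂ : List K)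
    (h : lC sg cl l₁ C = lC sg cl l₂ C) :
    B.VS sg Lam N cl G q l₁ C = B.VS sg Lam N cl G q l₂ C := by
  unfold Blk.VS Blk.dr Blk.US
  rw [h]

private theorem Sv_cons {X K : Type} [DecidableEq X] [DecidableEq K] (sg : K → X) (cl : X → List X) (z : K) (l₁ l₂ : List K)
    (h : lC sg cl l₁ (cl (sg z)) = lC sg cl l₂ (cl (sg z))) :
    lC sg cl (z :: l₁) (cl (sg z)) = lC sg cl (z :: l₂) (cl (sg z)) := by
  unfold lC at h ⊢
  rw [List.filter_cons, List.filter_cons, h]

theorem svProp (h1 : SpProp) : SvProp := by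
  intro X K _ _ _ _ _ _ B sg Lam N cl G q z l
  obtain ⟨-, -, -, h4⟩ := h1 X K sg cl
  have key := h4 l (cl (sg z))
  have e1 : B.svC sg Lam N cl G z (lC sg cl l (cl (sg z))) = B.svC sg Lam N cl G z l := by
    unfold Blk.svC
    rw [key]
  have e2 : B.nv sg Lam N cl G q z (lC sg cl l (cl (sg z))) = B.nv sg Lam N cl G q z l := by
    unfold Blk.nv
    rw [Sv_VS B sg Lam N cl G q (cl (sg z)) _ _ key,
      Sv_VS B sg Lam N cl G q (cl (sg z)) _ _ (Sv_cons sg cl z _ _ key)]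
  refine ⟨e1, e2, ?_, ?_⟩
  · unfold Blk.Dr
    rw [e1]
  · unfold Blk.Hit
    rw [e1, e2]

end Pool.Agent.AM.C
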