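import Pool.Agent.Lib.AM.SpecC
import Mathlib.Tactic.Linarith
import Mathlib.Tactic.Positivity

set_option linter.all false

/-!
# AM, C/Th: the radii of the cells and the excesses
-/

namespace Pool.Agent.AM.C

open Finset Pool.Agent.MP_a4c1f4_lc Pool.Agent.MP_a4c1f4_lc.Dbl

private theorem Th_N {X : Type} [Fintype X] [DecidableEq X] [Nonempty X] {B : Blk X} {Lam : ℝ}
    {N : ℕ} {D : X → X → ℝ} {cl : X → List X} (hB : B.OK Lam N D cl) : (0 : ℝ) < N := by
  have h1 := hB.hLam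
  have h2 := hB.hN
  nlinarith

private theorem Th_eta {X : Type} [Fintype X] [DecidableEq X] [Nonempty X] {B : Blk X} {Lam : ℝ}
    {N : ℕ} {D : X → X → ℝ} {cl : X → List X} (hB : B.OK Lam N D cl) {i : ℕ} (hi : i ≤ B.h) :
    0 < B.eta Lam N i := by
  have h1 := hB.hLam
  have h2 := Th_N hB
  have h3 := hB.mu i hi
  have h4 : 0 < Lam := by linarith
  unfold Blk.eta
  positivity

private theorem Th_own (h1 : FoAProp) {X : Type} [Fintype X] [DecidableEq X] [Nonempty X]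
    {B : Blk X} {Lam : ℝ} {N : ℕ} {D : X → X → ℝ} {cl : X → List X} (hB : B.OK Lam N D cl)
    (G : ℕ → X → ℕ) {i : ℕ} (hi : i ≤ B.h) (x : X) :
    Own (B.dp i) (B.eta Lam N i) (G i) x (B.ow Lam N G i x) :=
  ((h1 X (B.dp i) (B.eta Lam N i) (G i) (hB.pm i hi) (Th_eta hB hi)).1 x _).2 rfl

private theorem Th_exc {X : Type} [Fintype X] [DecidableEq X] [Nonempty X]
    {B : Blk X} {Lam : ℝ} {N : ℕ} {D : X → X → ℝ} {cl : X → List X} (hB : B.OK Lam N D cl)
    {G : ℕ → X → ℕ} (hG : ∀ i z, G i z ≤ N) {i : ℕ} (hi : i ≤ B.h) (x : X) :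
    0 ≤ B.exc Lam N G i x ∧ B.exc Lam N G i x ≤ Lam := by
  have h1 := hB.hLam
  have h2 := Th_N hB
  refine ⟨le_max_left _ _, ?_⟩
  unfold Blk.exc Blk.ex
  have h3 := hB.vb i hi (B.ow Lam N G i x)
  have h4 : ((G i (B.ow Lam N G i x) : ℕ) : ℝ) ≤ N := by exact_mod_cast hG i _
  have h5 : Lam * ((G i (B.ow Lam N G i x) : ℕ) : ℝ) / (N : ℝ) ≤ Lam := by
    rw [div_le_iff₀ h2]
    exact mul_le_mul_of_nonneg_left h4 (by linarith)
  apply max_le
  · linarith
  · linarith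

private theorem Th_rad (h1 : FoAProp) {X : Type} [Fintype X] [DecidableEq X] [Nonempty X]
    {B : Blk X} {Lam : ℝ} {N : ℕ} {D : X → X → ℝ} {cl : X → List X} (hB : B.OK Lam N D cl)
    {G : ℕ → X → ℕ} (hG : B.Supp N G) {i : ℕ} (hi : i ≤ B.h) (x y : X)
    (hxy : B.ow Lam N G i x = B.ow Lam N G i y) :
    D x y ≤ B.rr i * (1 + B.exc Lam N G i x) := by
  have hx := Th_own h1 hB G hi x
  have hy := Th_own h1 hB G hi y
  rw [← hxy] at hy
  have hg : ∀ z, G i z ≤ N := fun z => (hG.1 i z).le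
  have e1 := hB.rad i hi (G i) hg (hG.2 i hi) x _ hx
  have e2 := hB.rad i hi (G i) hg (hG.2 i hi) y _ hy
  have e3 := hB.pmD.tri x (B.ow Lam N G i x) y
  have e4 := hB.pmD.symm (B.ow Lam N G i x) y
  unfold Blk.exc
  linarith

private theorem Th_sure (h1 : FoAProp) {X : Type} [Fintype X] [DecidableEq X] [Nonempty X]
    {B : Blk X} {Lam : ℝ} {N : ℕ} {D : X → X → ℝ} {cl : X → List X} (hB : B.OK Lam N D cl)
    {G : ℕ → X → ℕ} (hG : ∀ i z, G i z ≤ N) {i : ℕ} (hi : i ≤ B.h) (x y : X)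
    (hxy : B.ow Lam N G i x = B.ow Lam N G i y) : D x y ≤ 2 * B.sr i := by
  have hx := Th_own h1 hB G hi x
  have hy := Th_own h1 hB G hi y
  rw [← hxy] at hy
  have e1 := hB.sure i hi (G i) (hG i) x _ hx
  have e2 := hB.sure i hi (G i) (hG i) y _ hy
  have e3 := hB.pmD.tri x (B.ow Lam N G i x) y
  have e4 := hB.pmD.symm (B.ow Lam N G i x) y
  linarith

theorem thProp (h1 : FoAProp) : ThProp := by
  intro X _ _ _ B Lam N D cl G hB
  refine ⟨fun hG => ?_, fun hG i hi x y hxy => Th_rad h1 hB hG hi x y hxy,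
    fun hG i hi x y hxy => Th_sure h1 hB hG hi x y hxy, fun hG i hi x => Th_exc hB hG hi x⟩
  have hG' : ∀ i z, G i z ≤ N := fun i z => (hG.1 i z).le
  have h0 : 0 ≤ B.h := Nat.zero_le _
  have hhd : ∀ x y, B.ncl Lam N cl G x = B.ncl Lam N cl G y →
      B.ow Lam N G 0 x = B.ow Lam N G 0 y := by
    intro x y hxy
    unfold Blk.ncl at hxy
    exact (List.cons_eq_cons.1 hxy).1
  refine ⟨fun x => ?_, fun x => ?_, fun x y hxy => ?_, fun x y hxy => ?_⟩
  · unfold Blk.nth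
    linarith [(Th_exc hB hG' h0 x).1]
  · unfold Blk.nth
    linarith [(Th_exc hB hG' h0 x).2]
  · unfold Blk.nth Blk.exc
    rw [hhd x y hxy]
  · unfold Blk.nth
    have := Th_rad h1 hB hG h0 x y (hhd x y hxy)
    linarith

end Pool.Agent.AM.C
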