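import Pool.Agent.Lib.AM.SpecC
set_option linter.all false

/-!
# AM, part C, file Ur: the perturbed optimum stays in the cluster
-/

namespace Pool.Agent.AM.C
open Finset Pool.Agent.MP_a4c1f4_lc Pool.Agent.MP_a4c1f4_lc.Dbl

private theorem Ur_le {K : Type} (c : K ⊕ K → K ⊕ K → ℝ) (f : K ⊕ K → K ⊕ K) :
    ∀ (l : List K) (τ : List (K ⊕ K)), (∀ x ∈ l, ∀ t ∈ τ, c (Sum.inl x) (f t) ≤ c (Sum.inl x) t) →
      acost c (l.map Sum.inl) (τ.map f) ≤ acost c (l.map Sum.inl) τ := by
  intro l
  induction l with
  | nil => intro τ _; simp [acost]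
  | cons x l ih =>
    intro τ h
    cases τ with
    | nil => simp [acost]
    | cons t τ =>
      have h1 := ih τ (fun x' hx' t' ht' => h x' (List.mem_cons_of_mem _ hx') t'
        (List.mem_cons_of_mem _ ht'))
      have h2 := h x List.mem_cons_self t List.mem_cons_self
      simp only [acost, List.map_cons, List.zipWith_cons_cons, List.sum_cons] at *
      linarith

private theorem Ur_lt {K : Type} (c : K ⊕ K → K ⊕ K → ℝ) (f : K ⊕ K → K ⊕ K) (a : K ⊕ K) :
    ∀ (l : List K) (τ : List (K ⊕ K)), τ.length = l.length →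
      (∀ x ∈ l, ∀ t ∈ τ, c (Sum.inl x) (f t) ≤ c (Sum.inl x) t) →
      (∀ x ∈ l, c (Sum.inl x) (f a) < c (Sum.inl x) a) → a ∈ τ →
      acost c (l.map Sum.inl) (τ.map f) < acost c (l.map Sum.inl) τ := by
  intro l
  induction l with
  | nil =>
    intro τ hlen _ _ ha
    have : τ = [] := List.length_eq_zero_iff.1 hlen
    rw [this] at ha
    exact absurd ha List.not_mem_nil
  | cons x l ih =>
    intro τ hlen h hs ha
    cases τ with
    | nil => exact absurd ha List.not_mem_nil
    | cons t τ =>
      have hlen' : τ.length = l.length := by simpa using hlen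
      have hh : ∀ x' ∈ l, ∀ t' ∈ τ, c (Sum.inl x') (f t') ≤ c (Sum.inl x') t' :=
        fun x' hx' t' ht' => h x' (List.mem_cons_of_mem _ hx') t' (List.mem_cons_of_mem _ ht')
      have h2 := h x List.mem_cons_self t List.mem_cons_self
      rcases List.mem_cons.1 ha with h3 | h3
      · have h4 := hs x List.mem_cons_self
        have h5 := Ur_le c f l τ hh
        rw [h3] at h4
        simp only [acost, List.map_cons, List.zipWith_cons_cons, List.sum_cons] at *
        linarith
      · have h5 := ih τ hlen' hh (fun x' hx' => hs x' (List.mem_cons_of_mem _ hx')) h3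
        simp only [acost, List.map_cons, List.zipWith_cons_cons, List.sum_cons] at *
        linarith

private theorem Ur_cnt {K : Type} (c : K ⊕ K → K ⊕ K → ℝ) (R : ℝ) (h0 : ∀ r s, 0 ≤ c r s)
    (hR : ∀ x d : K, R ≤ c (Sum.inl x) (Sum.inr d)) :
    ∀ (l : List K) (τ : List (K ⊕ K)), τ.length = l.length →
      R * ((τ.filter (fun t => t.isRight)).length : ℝ) ≤ acost c (l.map Sum.inl) τ := by
  intro l
  induction l with
  | nil =>
    intro τ hlen
    have : τ = [] := List.length_eq_zero_iff.1 hlen
    subst this
    simp [acost]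
  | cons x l ih =>
    intro τ hlen
    cases τ with
    | nil => simp at hlen
    | cons t τ =>
      have hlen' : τ.length = l.length := by simpa using hlen
      have h1 := ih τ hlen'
      cases t with
      | inl v =>
        have h2 := h0 (Sum.inl x) (Sum.inl v)
        have h3 : (List.filter (fun t : K ⊕ K => t.isRight) (Sum.inl v :: τ)) =
            List.filter (fun t : K ⊕ K => t.isRight) τ := by simp
        rw [h3]
        simp only [acost, List.map_cons, List.zipWith_cons_cons, List.sum_cons] at *
        linarith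
      | inr d =>
        have h2 := hR x d
        have h3 : (List.filter (fun t : K ⊕ K => t.isRight) (Sum.inr d :: τ)) =
            Sum.inr d :: List.filter (fun t : K ⊕ K => t.isRight) τ := by simp
        rw [h3, List.length_cons]
        push_cast
        simp only [acost, List.map_cons, List.zipWith_cons_cons, List.sum_cons] at *
        linarith

private theorem Ur_gen {K : Type} [Fintype K] [DecidableEq K] [Nonempty K]
    (h2 : OptBasicProp) (h3 : UsedProp) (c : K ⊕ K → K ⊕ K → ℝ) (R : ℝ) (hRpos : 0 < R)
    (P : K → Prop) (h0 : ∀ r s, 0 ≤ c r s)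
    (hA : ∀ x v : K, P x → ¬ P v → 3 * R ≤ c (Sum.inl x) (Sum.inl v))
    (hD : ∀ x d : K, R ≤ c (Sum.inl x) (Sum.inr d) ∧ c (Sum.inl x) (Sum.inr d) ≤ 3 / 2 * R)
    (l : List K) (hl : ∀ x ∈ l, P x) (hlen : l.length ≤ Fintype.card K) :
    (∀ v ∈ usedR c l, P v) ∧ (usedR c l).card ≤ l.length ∧
      R * ((l.length : ℝ) - (usedR c l).card) ≤ optv c (l.map Sum.inl) := by
  have hcard : (l.map (Sum.inl : K → K ⊕ K)).length ≤ Fintype.card (K ⊕ K) := by
    rw [List.length_map, Fintype.card_sum]; omega
  obtain ⟨τ, ⟨hτlen, hτnd⟩, hτF, hτc⟩ := (h3 (K ⊕ K) c (l.map Sum.inl)).1 hcard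
  rw [List.length_map] at hτlen
  refine ⟨?_, ?_, ?_⟩
  · intro v hv
    by_contra hPv
    have hv1 : (Sum.inl v : K ⊕ K) ∈ τ := by
      have : (Sum.inl v : K ⊕ K) ∈ used c (l.map Sum.inl) := (Finset.mem_filter.1 hv).2
      rw [← hτF] at this
      exact List.mem_toFinset.1 this
    obtain ⟨d, hd⟩ : ∃ d : K, (Sum.inr d : K ⊕ K) ∉ τ := by
      by_contra hcon
      push Not at hcon
      have hsub : insert (Sum.inl v : K ⊕ K) ((Finset.univ : Finset K).image Sum.inr) ⊆
          τ.toFinset := by
        intro t ht
        rcases Finset.mem_insert.1 ht with h | h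
        · rw [h]; exact List.mem_toFinset.2 hv1
        · obtain ⟨d, -, rfl⟩ := Finset.mem_image.1 h
          exact List.mem_toFinset.2 (hcon d)
      have h5 := Finset.card_le_card hsub
      rw [Finset.card_insert_of_notMem (by simp), Finset.card_image_of_injective _ Sum.inr_injective,
        Finset.card_univ] at h5
      have h6 := List.toFinset_card_le τ
      omega
    set f := Equiv.swap (Sum.inl v : K ⊕ K) (Sum.inr d) with hf
    have h5 : acost c (l.map Sum.inl) (τ.map f) < acost c (l.map Sum.inl) τ := by
      refine Ur_lt c f (Sum.inl v) l τ hτlen ?_ ?_ hv1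
      · intro x hx t ht
        by_cases ht1 : t = Sum.inl v
        · rw [ht1, hf, Equiv.swap_apply_left]
          have := hA x v (hl x hx) hPv
          have := (hD x d).2
          linarith
        · have ht2 : t ≠ Sum.inr d := fun h => hd (h ▸ ht)
          rw [hf, Equiv.swap_apply_of_ne_of_ne ht1 ht2]
      · intro x hx
        rw [hf, Equiv.swap_apply_left]
        have := hA x v (hl x hx) hPv
        have := (hD x d).2
        linarith
    have h6 := (h2 (K ⊕ K) c (l.map Sum.inl)).1 (τ.map f)
      ⟨by simp [hτlen], hτnd.map f.injective⟩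
    linarith
  · have hsub : (usedR c l).image (Sum.inl : K → K ⊕ K) ⊆ τ.toFinset := by
      intro t ht
      obtain ⟨v, hv, rfl⟩ := Finset.mem_image.1 ht
      rw [hτF]
      exact (Finset.mem_filter.1 hv).2
    have h5 := Finset.card_le_card hsub
    rw [Finset.card_image_of_injective _ Sum.inl_injective] at h5
    have h6 := List.toFinset_card_le τ
    omega
  · have h5 := Ur_cnt c R h0 (fun x d => (hD x d).1) l τ hτlen
    rw [hτc] at h5
    have h6 : (τ.filter (fun t => t.isLeft)).length ≤ (usedR c l).card := by
      have h7 : (τ.filter (fun t => t.isLeft)).toFinset ⊆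
          (usedR c l).image (Sum.inl : K → K ⊕ K) := by
        intro t ht
        rw [List.mem_toFinset, List.mem_filter] at ht
        obtain ⟨ht1, ht2⟩ := ht
        cases t with
        | inl v =>
          refine Finset.mem_image.2 ⟨v, ?_, rfl⟩
          refine Finset.mem_filter.2 ⟨Finset.mem_univ _, ?_⟩
          rw [← hτF]
          exact List.mem_toFinset.2 ht1
        | inr d => simp at ht2
      have h8 := Finset.card_le_card h7
      rw [Finset.card_image_of_injective _ Sum.inl_injective,
        List.toFinset_card_of_nodup (hτnd.filter _)] at h8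
      exact h8
    have h7 : τ.length = (τ.filter (fun t => t.isLeft)).length +
        (τ.filter (fun t => t.isRight)).length := by
      clear hτF hτc hτnd hτlen h5 h6
      induction τ with
      | nil => rfl
      | cons t τ ih =>
        cases t with
        | inl v => simp [ih]; omega
        | inr d => simp [ih]; omega
    have h8 : (l.length : ℝ) - (usedR c l).card ≤
        ((τ.filter (fun t => t.isRight)).length : ℝ) := by
      have h9 : l.length ≤ (usedR c l).card + (τ.filter (fun t => t.isRight)).length := by omega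
      have h10 : (l.length : ℝ) ≤ ((usedR c l).card : ℝ) +
          ((τ.filter (fun t => t.isRight)).length : ℝ) := by exact_mod_cast h9
      linarith
    exact le_trans (mul_le_mul_of_nonneg_left h8 hRpos.le) h5

theorem urProp (h1 : CoProp) (h2 : OptBasicProp) (h3 : UsedProp) : UrProp := by
  intro X K _ _ _ _ _ _ B sg Lam N D cl G C hOK hG
  obtain ⟨-, -, -, hA, hD, h0⟩ := h1 X K B sg Lam N D cl G hOK hG
  have hA' : ∀ x v : K, cl (sg x) = C → ¬ cl (sg v) = C →
      3 * B.R ≤ B.c sg Lam N cl G (Sum.inl x) (Sum.inl v) := by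
    intro x v hx hv
    exact hA x v (fun h => hv (h ▸ hx))
  have gen := Ur_gen h2 h3 (B.c sg Lam N cl G) B.R hOK.Rpos (fun v => cl (sg v) = C) h0 hA' hD
  refine ⟨fun l hl hlen => gen l hl hlen, ?_⟩
  intro z l hl hlen
  have hlen2 : (l.map (Sum.inl : K → K ⊕ K)).length + 1 ≤ Fintype.card (K ⊕ K) := by
    rw [List.length_map, Fintype.card_sum]; omega
  have hu := ((h3 (K ⊕ K) (B.c sg Lam N cl G) (l.map Sum.inl)).2 (Sum.inl z) hlen2).1
  have hdef : used (B.c sg Lam N cl G) ((z :: l).map Sum.inl) =
      insert (sv (B.c sg Lam N cl G) z l) (used (B.c sg Lam N cl G) (l.map Sum.inl)) := rfl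
  have hsv : srv (B.c sg Lam N cl G) (Sum.inl z) (l.map Sum.inl) = sv (B.c sg Lam N cl G) z l := rfl
  rw [hsv] at hu
  constructor
  · intro y hy
    have e : usedR (B.c sg Lam N cl G) (z :: l) = insert y (usedR (B.c sg Lam N cl G) l) := by
      ext v
      unfold usedR
      rw [hdef, hy]
      simp
    refine ⟨?_, ?_, e⟩
    · refine (gen (z :: l) hl (by simpa using hlen)).1 y ?_
      rw [e]
      exact Finset.mem_insert_self _ _
    · intro hy2
      rw [hy] at hu
      exact hu (Finset.mem_filter.1 hy2).2
  · intro d hd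
    ext v
    unfold usedR
    rw [hdef, hd]
    simp

end Pool.Agent.AM.C
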