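import Pool.Agent.Lib.AM.SpecC

set_option linter.all false

/-!
# AM, part C: the inequalities of the interface for the tokens of one cluster
-/

namespace Pool.Agent.AM.C

open Finset Pool.Agent.MP_a4c1f4_lc Pool.Agent.MP_a4c1f4_lc.Dbl

/-- The zero case: if the optimum vanishes then no request crosses a field, so a sum of terms
vanishing for requests without crossing is zero. -/
private theorem Xz_zero (h3 : ZeProp) {X K : Type} [Fintype X] [DecidableEq X] [Nonempty X]
    [Fintype K] [DecidableEq K] [Nonempty K] (B : Blk X) (sg : K → X) (Lam : ℝ) (N : ℕ)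
    (D : X → X → ℝ) (cl : X → List X) (G : ℕ → X → ℕ) (hOK : B.OK Lam N D cl)
    (hG : ∀ i z, G i z ≤ N) (f : K → List K → ℝ)
    (hf : ∀ z l, (∀ i ≤ B.h, ¬ B.Crs sg Lam N cl G i z l) → f z l = 0) :
    ∀ l : List K, l.length ≤ Fintype.card K →
      optv (B.c sg Lam N cl G) (l.map Sum.inl) ≤ 0 → psum f l = 0 := by
  intro l
  induction l with
  | nil =>
    intro _ _
    rfl
  | cons z l ih =>
    intro hl ho
    have hl' : l.length + 1 ≤ Fintype.card K := by simpa using hl
    obtain ⟨ha, hb⟩ := h3 X K B sg Lam N D cl G z l hOK hG hl' ho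
    have h1 : psum f l = 0 := ih (by omega) ha
    have h2 : f z l = 0 := hf z l hb
    show psum f l + f z l = 0
    rw [h1, h2, add_zero]

private theorem Xz_arr {X K : Type} [Fintype X] [DecidableEq X] [Nonempty X]
    [Fintype K] [DecidableEq K] [Nonempty K] (B : Blk X) (sg : K → X) (Lam : ℝ) (N : ℕ)
    (cl : X → List X) (G : ℕ → X → ℕ) (z : K) (l : List K)
    (h : ¬ B.Crs sg Lam N cl G 0 z l) : B.arr sg Lam N cl G z l = 0 := by
  have h' : B.owT sg Lam N G 0 (sv (B.c sg Lam N cl G) z l) = some (B.ow Lam N G 0 (sg z)) := by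
    by_contra hc
    exact h hc
  unfold Blk.arr
  rcases hs : sv (B.c sg Lam N cl G) z l with v | d
  · rw [hs] at h'
    have h2 : B.ow Lam N G 0 (sg v) = B.ow Lam N G 0 (sg z) := by
      have h3 : some (B.ow Lam N G 0 (sg v)) = some (B.ow Lam N G 0 (sg z)) := h'
      exact Option.some.inj h3
    have h4 : ind (B.ow Lam N G 0 (sg v) ≠ B.ow Lam N G 0 (sg z)) = 0 :=
      ind_false (fun hne => hne h2)
    show ind (B.ow Lam N G 0 (sg v) ≠ B.ow Lam N G 0 (sg z)) * (1 + B.exc Lam N G 0 (sg v)) = 0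
    rw [h4, zero_mul]
  · rfl

private theorem Xz_E0 (h7 : EbProp) {X : Type} [Fintype X] [DecidableEq X] [Nonempty X]
    (B : Blk X) (Lam : ℝ) (N : ℕ)
    (D : X → X → ℝ) (cl : X → List X) (hOK : B.OK Lam N D cl) (f : (ℕ → X → ℕ) → ℝ)
    (hf : ∀ G : ℕ → X → ℕ, (∀ i z, G i z ≤ N) → f G = 0) : B.E Lam N sT f ≤ 0 := by
  obtain ⟨ha, hb, -⟩ := h7 X B Lam N D cl hOK sT
  calc B.E Lam N sT f ≤ B.E Lam N sT (fun _ => (0 : ℝ)) :=
        ha f (fun _ => 0) (fun G hG _ => le_of_eq (hf G (fun i z => le_of_lt (hG i z))))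
    _ = 0 := hb 0

theorem xzProp (h1 : BdProp) (h2 : RfProp) (h3 : ZeProp) (h4 : CrossProp) (h5 : CrossProp0)
    (h6 : ArrProp) (h7 : EbProp) (h8 : UrProp) : XzProp := by
  intro X K _ _ _ _ _ _ B sg Lam N D cl C tl hOK hF hC hgood hnd hlen
  obtain ⟨hP0, hP⟩ := h1 X K B sg Lam N D cl C tl hOK hF hC hgood hnd hlen
  have hlen' : (tl.map Prod.fst).length ≤ Fintype.card K := by simpa using hlen
  have hz : rcs sg B.W B.R tl = 0 → ∀ f : (ℕ → X → ℕ) → K → List K → ℝ,
      (∀ G z l, (∀ i ≤ B.h, ¬ B.Crs sg Lam N cl G i z l) → f G z l = 0) →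
      B.E Lam N sT (fun G => psum (f G) (tl.map Prod.fst)) ≤ 0 := by
    intro h0 f hf
    refine Xz_E0 h7 B Lam N D cl hOK _ ?_
    intro G hG
    have ho := (h2 X K B sg Lam N D cl G tl hOK hG hgood hnd hlen).2
    rw [h0] at ho
    exact Xz_zero h3 B sg Lam N D cl G hOK hG (f G) (hf G) _ hlen' ho
  refine ⟨?_, ?_, ?_, ?_⟩
  · intro i k hi hk hik
    rcases hP with h0 | hB
    · have := hz h0 (fun G x l => ind (B.Crs sg Lam N cl G i x l) *
        (1 + B.exc Lam N G k (sg x))) (by
          intro G z l hn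
          show ind (B.Crs sg Lam N cl G i z l) * (1 + B.exc Lam N G k (sg z)) = 0
          rw [ind_false (hn i hi), zero_mul])
      rw [h0, mul_zero]
      exact this
    · exact h4 X K B sg Lam N D cl C _ _ hOK hB i k hi hk hik
  · intro i hi
    rcases hP with h0 | hB
    · have := hz h0 (fun G x l => ind (B.Crs sg Lam N cl G i x l)) (by
          intro G z l hn
          exact ind_false (hn i hi))
      rw [h0, mul_zero]
      exact this
    · exact h5 X K B sg Lam N D cl C _ _ hOK hB i hi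
  · rcases hP with h0 | hB
    · have := hz h0 (fun G x l => B.arr sg Lam N cl G x l) (by
          intro G z l hn
          exact Xz_arr B sg Lam N cl G z l (hn 0 (Nat.zero_le _)))
      rw [h0, mul_zero]
      exact this
    · exact h6 X K B sg Lam N D cl C _ _ hOK hB
  · intro G hG
    have ho := (h2 X K B sg Lam N D cl G tl hOK hG hgood hnd hlen).2
    have hCl : ∀ x ∈ tl.map Prod.fst, cl (sg x) = C := by
      intro x hx
      obtain ⟨t, ht, rfl⟩ := List.mem_map.1 hx
      exact hC t ht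
    obtain ⟨-, hb, hc⟩ := (h8 X K B sg Lam N D cl G C hOK hG).1 _ hCl hlen'
    have hl : lC sg cl (tl.map Prod.fst) C = tl.map Prod.fst := by
      unfold lC
      rw [List.filter_eq_self]
      intro x hx
      exact decide_eq_true (hCl x hx)
    have hd : B.dr sg Lam N cl G (tl.map Prod.fst) C =
        (tl.map Prod.fst).length - (usedR (B.c sg Lam N cl G) (tl.map Prod.fst)).card := by
      unfold Blk.dr Blk.US
      rw [hl]
    rw [hd, Nat.cast_sub hb]
    exact hc.trans ho

end Pool.Agent.AM.C
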