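import Pool.Agent.Lib.AM.SpecC

set_option linter.all false

/-!
# AM, C/Ze: the zero case
-/

namespace Pool.Agent.AM.C

open Finset Pool.Agent.MP_a4c1f4_lc Pool.Agent.MP_a4c1f4_lc.Dbl

private theorem Ze_cons {T : Type} (c : T → T → ℝ) (a b : T) (l τ : List T) :
    acost c (a :: l) (b :: τ) = c a b + acost c l τ := by
  simp [acost]

private theorem Ze_nn {T : Type} (c : T → T → ℝ) (hc : ∀ r s, 0 ≤ c r s) :
    ∀ (l τ : List T), 0 ≤ acost c l τ := by
  intro l
  induction l with
  | nil => intro τ; simp [acost]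
  | cons a l ih =>
    intro τ
    cases τ with
    | nil => simp [acost]
    | cons b τ =>
      rw [Ze_cons]
      have h1 := hc a b
      have h2 := ih τ
      linarith

private theorem Ze_map {T U : Type} (c : T → T → ℝ) (hc : ∀ r s, 0 ≤ c r s) (f : T → U) :
    ∀ (l τ : List T), τ.length = l.length →
      (∀ r ∈ l, ∀ s, c r s ≤ 0 → f r = f s) → acost c l τ ≤ 0 → l.map f = τ.map f := by
  intro l
  induction l with
  | nil =>
    intro τ hlen _ _
    have : τ = [] := List.length_eq_zero_iff.mp (by simpa using hlen)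
    simp [this]
  | cons a l ih =>
    intro τ hlen hf hle
    cases τ with
    | nil => simp at hlen
    | cons b τ =>
      rw [Ze_cons] at hle
      have h1 := hc a b
      have h2 := Ze_nn c hc l τ
      have h3 : f a = f b := hf a (by simp) b (by linarith)
      have h4 : l.map f = τ.map f :=
        ih τ (by simpa using hlen) (fun r hr => hf r (by simp [hr])) (by linarith)
      simp [h3, h4]

private theorem Ze_cancel {U : Type} {a b : U} {M : List U} (h : (a :: M).Perm (b :: M)) :
    a = b := by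
  have h1 : (a ::ₘ (M : Multiset U)) = b ::ₘ (M : Multiset U) := by
    rw [Multiset.cons_coe, Multiset.cons_coe]
    exact Multiset.coe_eq_coe.mpr h
  exact (Multiset.cons_inj_left _).mp h1

theorem zeProp (h1 : CoProp) (h2 : UsedProp) (h3 : OptBasicProp) (h4 : Ow0Prop) : ZeProp := by
  intro X K _ _ _ _ _ _ B sg Lam N D cl G z l hOK hG hlen hopt
  obtain ⟨hW, hpot, hsame, hdiff, hdum, hnn⟩ := h1 X K B sg Lam N D cl G hOK hG
  have hR := hOK.Rpos
  -- cardinality
  have hcard : Fintype.card (K ⊕ K) = Fintype.card K + Fintype.card K := Fintype.card_sum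
  have hl1 : (l.map (Sum.inl : K → K ⊕ K)).length + 1 ≤ Fintype.card (K ⊕ K) := by
    rw [List.length_map, hcard]; omega
  -- pairs of cost zero
  have hkey : ∀ (x : K) (t : K ⊕ K), B.c sg Lam N cl G (Sum.inl x) t ≤ 0 → ∀ i ≤ B.h,
      B.owT sg Lam N G i (Sum.inl x) = B.owT sg Lam N G i t := by
    intro x t ht i hi
    cases t with
    | inr d =>
      have := (hdum x d).1
      linarith
    | inl v =>
      by_cases hcl : cl (sg x) = cl (sg v)
      · have hw := (hsame x v hcl).1
        have hw0 : B.W (sg x) (sg v) = 0 := le_antisymm (by linarith) (hW _ _)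
        have hdp : B.dp i (sg x) (sg v) = 0 := by
          unfold Blk.W at hw0
          have hnn' : ∀ j ∈ range (B.h + 1), 0 ≤ B.dp j (sg x) (sg v) := by
            intro j hj
            exact (hOK.pm j (by have := Finset.mem_range.mp hj; omega)).nonneg _ _
          exact (Finset.sum_eq_zero_iff_of_nonneg hnn').mp hw0 i
            (Finset.mem_range.mpr (by omega))
        have := h4 X B Lam N D cl G hOK i hi (sg x) (sg v) hdp
        simp only [Blk.owT, this]
      · have := hdiff x v hcl
        linarith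
  obtain ⟨τ, hτa, hτF, hτc⟩ := (h2 (K ⊕ K) (B.c sg Lam N cl G) (l.map Sum.inl)).1 (by omega)
  obtain ⟨hu, σ, hσa, hσF, hσc⟩ :=
    (h2 (K ⊕ K) (B.c sg Lam N cl G) (l.map Sum.inl)).2 (Sum.inl z) hl1
  have hopt' : optv (B.c sg Lam N cl G) (Sum.inl z :: l.map Sum.inl) ≤ 0 := by
    simpa using hopt
  -- the optimum of the tail
  have hl0 : optv (B.c sg Lam N cl G) (l.map Sum.inl) ≤ 0 := by
    cases σ with
    | nil => simp [Adm] at hσa
    | cons s σ' =>
      have ha : Adm (l.map (Sum.inl : K → K ⊕ K)) σ' := by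
        refine ⟨?_, ?_⟩
        · simpa using hσa.1
        · exact (List.nodup_cons.mp hσa.2).2
      have h5 := (h3 (K ⊕ K) (B.c sg Lam N cl G) (l.map Sum.inl)).1 σ' ha
      rw [Ze_cons] at hσc
      have h6 := hnn (Sum.inl z) s
      linarith
  refine ⟨hl0, ?_⟩
  intro i hi hcrs
  -- the multisets of owners
  have hm1 : (l.map (Sum.inl : K → K ⊕ K)).map (B.owT sg Lam N G i) =
      τ.map (B.owT sg Lam N G i) := by
    refine Ze_map (B.c sg Lam N cl G) hnn _ _ _ hτa.1 ?_ (by rw [hτc]; exact hl0)
    intro r hr s hs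
    obtain ⟨x, hx, rfl⟩ := List.mem_map.mp hr
    exact hkey x s hs i hi
  have hm2 : (Sum.inl z :: l.map (Sum.inl : K → K ⊕ K)).map (B.owT sg Lam N G i) =
      σ.map (B.owT sg Lam N G i) := by
    refine Ze_map (B.c sg Lam N cl G) hnn _ _ _ hσa.1 ?_ (by rw [hσc]; exact hopt')
    intro r hr s hs
    rcases List.mem_cons.mp hr with rfl | hr
    · exact hkey z s hs i hi
    · obtain ⟨x, hx, rfl⟩ := List.mem_map.mp hr
      exact hkey x s hs i hi
  have hperm : σ.Perm (srv (B.c sg Lam N cl G) (Sum.inl z) (l.map Sum.inl) :: τ) := by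
    refine List.perm_of_nodup_nodup_toFinset_eq hσa.2 ?_ ?_
    · refine List.nodup_cons.mpr ⟨?_, hτa.2⟩
      intro hmem
      apply hu
      rw [← hτF]
      exact List.mem_toFinset.mpr hmem
    · rw [hσF, List.toFinset_cons, hτF]
  have hp2 := hperm.map (B.owT sg Lam N G i)
  rw [← hm2, List.map_cons, List.map_cons, hm1] at hp2
  have h7 := Ze_cancel hp2
  apply hcrs
  unfold sv
  rw [← h7]
  rfl

end Pool.Agent.AM.C
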