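import Pool.Agent.Lib.AM.A.AllB
import Pool.Agent.Lib.AM.C.Co
import Pool.Agent.Lib.AM.C.Ur
import Pool.Agent.Lib.AM.C.Ff
import Pool.Agent.Lib.AM.C.Nv
import Pool.Agent.Lib.AM.C.Nl
import Pool.Agent.Lib.AM.C.Th
import Pool.Agent.Lib.AM.C.Iv
import Pool.Agent.Lib.AM.C.Rf
import Pool.Agent.Lib.AM.C.Ow0
import Pool.Agent.Lib.AM.C.Ze
import Pool.Agent.Lib.AM.C.Bd
import Pool.Agent.Lib.AM.C.Xz
import Pool.Agent.Lib.AM.C.Dn
import Pool.Agent.Lib.AM.C.Sp
import Pool.Agent.Lib.AM.C.Sv
import Pool.Agent.Lib.AM.C.Di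
import Pool.Agent.Lib.AM.C.Ee
import Pool.Agent.Lib.AM.C.Hd
import Pool.Agent.Lib.AM.C.Cc
import Pool.Agent.Lib.AM.C.Bc
import Pool.Agent.Lib.AM.C.Pu
import Pool.Agent.Lib.AM.C.Ps
import Pool.Agent.Lib.AM.C.Pa
import Pool.Agent.Lib.AM.C.Pt
import Pool.Agent.Lib.AM.C.Bp
import Pool.Agent.Lib.AM.C.Law
import Pool.Agent.Lib.MP_a4c1f4_lc.Dbl.Top
import Pool.Agent.Lib.MP_a4c1f4_lc.Dbl.Del
import Pool.Agent.Lib.AM.A.AllA
import Pool.Agent.Lib.AM.H.AllH

set_option linter.all false

/-!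
# AM: part C, assembly. The four statements of Defs2 from the interface (Iface) and `HitProp`.
-/

namespace Pool.Agent.AM

open Finset Pool.Agent.MP_a4c1f4_lc Pool.Agent.MP_a4c1f4_lc.Dbl

theorem allC_co : CoProp := C.coProp all_foB
theorem allC_ur : UrProp := C.urProp allC_co optBasic all_used
theorem allC_ff : FfProp := C.ffProp topP (delP topP)
theorem allC_nv : NvProp := C.nvProp allC_ur allC_ff
theorem allC_nl : NlProp := C.nlProp allC_nv
theorem allC_th : ThProp := C.thProp all_foA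
theorem allC_iv : BlockInvProp := C.ivProp allC_nl allC_th allC_nv
theorem allC_rf : RfProp := C.rfProp allC_co optBasic
theorem allC_ow0 : Ow0Prop := C.ow0Prop all_foA
theorem allC_ze : ZeProp := C.zeProp allC_co all_used optBasic allC_ow0
theorem allC_bd : BdProp := C.bdProp allC_rf
theorem allC_xz (hC : CrossProp) (hC0 : CrossProp0) (hA : ArrProp) : XzProp :=
  C.xzProp allC_bd allC_rf allC_ze hC hC0 hA all_eb allC_ur
theorem allC_dn : DnProp := C.dnProp allC_ur
theorem allC_sp : SpProp := C.spProp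
theorem allC_sv : SvProp := C.svProp allC_sp
theorem allC_di : DiProp := C.diProp allC_nv allC_th
theorem allC_ee : EeProp := C.eeProp all_eb
theorem allC_hd (hC : CrossProp) (hC0 : CrossProp0) (hA : ArrProp) (hH : HitProp) : HdProp :=
  C.hdProp (allC_xz hC hC0 hA) hH allC_dn allC_ee all_eb
theorem allC_cc (hC : CrossProp) (hC0 : CrossProp0) (hA : ArrProp) (hH : HitProp) : CcProp :=
  C.ccProp (allC_xz hC hC0 hA) (allC_hd hC hC0 hA hH) allC_ee
theorem allC_bc (hC : CrossProp) (hC0 : CrossProp0) (hA : ArrProp) (hH : HitProp) :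
    BlockCostProp :=
  C.bcProp allC_di (allC_cc hC hC0 hA hH) allC_sp allC_sv allC_ee
theorem allC_ps : PsProp := C.psProp (C.puProp allC_nv allC_th)
theorem allC_pa (hC : CrossProp) (hC0 : CrossProp0) (hA : ArrProp) (hH : HitProp) : PaProp :=
  C.paProp (allC_xz hC hC0 hA) (allC_hd hC hC0 hA hH) allC_sp allC_sv allC_ee
theorem allC_pt (hCut : CutProp) (hSz : SizeProp) : PtProp :=
  C.ptProp hCut hSz allC_ow0 all_eb
theorem allC_bp (hC : CrossProp) (hC0 : CrossProp0) (hA : ArrProp) (hCut : CutProp)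
    (hSz : SizeProp) (hH : HitProp) : BlockPotProp :=
  C.bpProp allC_ps (allC_pa hC hC0 hA hH) (allC_pt hCut hSz) allC_ee all_eb
theorem allC_law : LawProp := C.lwProp all_eb all_tw

/-! The four statements of Defs2 without hypotheses. -/

theorem allC_hit : HitProp := hitAll allC_ur
theorem allC_BlockCost : BlockCostProp := allC_bc all_cross all_cross0 all_arr allC_hit
theorem allC_BlockPot : BlockPotProp :=
  allC_bp all_cross all_cross0 all_arr all_cut all_size allC_hit
theorem allC_BlockInv : BlockInvProp := allC_iv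
theorem allC_Law : LawProp := allC_law

end Pool.Agent.AM
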