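import Pool.Agent.Lib.AM.SpecC

set_option linter.all false

/-!
# AM, part C: distance of a relocation (`DiProp`)
-/

namespace Pool.Agent.AM.C

open Finset Pool.Agent.MP_a4c1f4_lc Pool.Agent.MP_a4c1f4_lc.Dbl

private theorem Di_step (P : ℕ → Prop) (h0 : P 0) : ∀ h : ℕ, ¬ P h → ∃ k < h, P k ∧ ¬ P (k + 1) := by
  intro h
  induction h with
  | zero => intro hn; exact absurd h0 hn
  | succ n ih =>
    intro hn
    by_cases hp : P n
    · exact ⟨n, Nat.lt_succ_self n, hp, hn⟩
    · obtain ⟨k, hk, hk1, hk2⟩ := ih hp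
      exact ⟨k, Nat.lt_succ_of_lt hk, hk1, hk2⟩

theorem diProp (h1 : NvProp) (h2 : ThProp) : DiProp := by
  intro X K _ _ _ _ _ _ B sg Lam N D cl th G q z l hOK hS hTh hfit
  obtain ⟨-, hThB, -, hThD⟩ := h2 X B Lam N D cl G hOK
  have hGN : ∀ i z, G i z ≤ N := fun i z => (hS.1 i z).le
  obtain ⟨-, hNv, -⟩ := h1 X K B sg Lam N D cl G q hOK hGN
  obtain ⟨hv1, -, -⟩ := hNv z l hfit
  have hthx : 1 ≤ th (sg z) := hTh.one (sg z)
  have hrh : 0 < B.rr B.h := hOK.rr B.h le_rfl
  have hterm : ∀ i ∈ range B.h, 0 ≤ B.rr (i + 1) *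
      (ind (B.Crs sg Lam N cl G i z (lC sg cl l (cl (sg z)))) *
          (1 + B.exc Lam N G (i + 1) (sg z))) := by
    intro i hi
    have hi' : i + 1 ≤ B.h := by rw [mem_range] at hi; omega
    have e1 := hThD hGN (i + 1) hi' (sg z)
    have e2 := hOK.rr (i + 1) hi'
    have e3 := ind_nonneg (B.Crs sg Lam N cl G i z (lC sg cl l (cl (sg z))))
    have e4 : 0 ≤ 1 + B.exc Lam N G (i + 1) (sg z) := by linarith [e1.1]
    exact mul_nonneg e2.le (mul_nonneg e3 e4)
  have hsum : 0 ≤ ∑ i ∈ range B.h, B.rr (i + 1) *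
      (ind (B.Crs sg Lam N cl G i z (lC sg cl l (cl (sg z)))) *
          (1 + B.exc Lam N G (i + 1) (sg z))) := Finset.sum_nonneg hterm
  have hthr : 0 ≤ th (sg z) * B.rr B.h := mul_nonneg (by linarith) hrh.le
  have i1 := ind_nonneg (B.Crs sg Lam N cl G B.h z (lC sg cl l (cl (sg z))))
  have i2 := ind_nonneg (B.Dr sg Lam N cl G z l)
  have i3 := ind_nonneg (B.Hit sg Lam N cl G q z l)
  by_cases hnp : B.ncl Lam N cl G (sg (B.nv sg Lam N cl G q z l)) = B.ncl Lam N cl G (sg z)
  · have : B.np sg Lam N cl G q z l = z := by unfold Blk.np; rw [if_pos hnp]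
    rw [this, hOK.pmD.self]
    have := mul_nonneg hthr (add_nonneg (add_nonneg i1 i2) i3)
    linarith
  · have hnpv : B.np sg Lam N cl G q z l = B.nv sg Lam N cl G q z l := by
      unfold Blk.np; rw [if_neg hnp]
    rw [hnpv]
    have hdiam : D (sg z) (sg (B.nv sg Lam N cl G q z l)) ≤ th (sg z) * B.rr B.h :=
      hTh.diam _ _ hv1.symm
    -- one of the three indicators is one
    have hone : ∀ a b c : ℝ, 0 ≤ a → 0 ≤ b → 0 ≤ c → 1 ≤ a + b + c →
        D (sg z) (sg (B.nv sg Lam N cl G q z l)) ≤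
        (∑ i ∈ range B.h, B.rr (i + 1) *
          (ind (B.Crs sg Lam N cl G i z (lC sg cl l (cl (sg z)))) *
            (1 + B.exc Lam N G (i + 1) (sg z)))) + th (sg z) * B.rr B.h * (a + b + c) := by
      intro a b c ha hb hc habc
      have : th (sg z) * B.rr B.h * 1 ≤ th (sg z) * B.rr B.h * (a + b + c) :=
        mul_le_mul_of_nonneg_left habc hthr
      linarith
    have how : B.ow Lam N G 0 (sg (B.nv sg Lam N cl G q z l)) ≠ B.ow Lam N G 0 (sg z) := by
      intro h
      apply hnp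
      unfold Blk.ncl
      rw [h, hv1]
    cases hu : B.svC sg Lam N cl G z l with
    | inr d =>
      have hD : B.Dr sg Lam N cl G z l := ⟨d, hu⟩
      exact hone _ _ _ i1 i2 i3 (by rw [ind_true hD]; linarith)
    | inl y =>
      by_cases hy : sg (B.nv sg Lam N cl G q z l) = sg y
      · have hu' : sv (B.c sg Lam N cl G) z (lC sg cl l (cl (sg z))) = Sum.inl y := hu
        have hcr : ∀ i, B.Crs sg Lam N cl G i z (lC sg cl l (cl (sg z))) ↔
            B.ow Lam N G i (sg y) ≠ B.ow Lam N G i (sg z) := by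
          intro i
          unfold Blk.Crs
          rw [hu']
          simp only [Blk.owT, ne_eq, Option.some.injEq]
        have hc0 : B.Crs sg Lam N cl G 0 z (lC sg cl l (cl (sg z))) := by
          rw [hcr, ← hy]; exact how
        by_cases hch : B.Crs sg Lam N cl G B.h z (lC sg cl l (cl (sg z)))
        · exact hone _ _ _ i1 i2 i3 (by rw [ind_true hch]; linarith)
        · obtain ⟨k, hk, hk1, hk2⟩ := Di_step
            (fun i => B.Crs sg Lam N cl G i z (lC sg cl l (cl (sg z)))) hc0 B.h hch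
          have hk2' : B.ow Lam N G (k + 1) (sg y) = B.ow Lam N G (k + 1) (sg z) := by
            by_contra hne
            exact hk2 ((hcr (k + 1)).2 hne)
          have hd := hThB hS (k + 1) hk (sg z) (sg y) hk2'.symm
          have hs := Finset.single_le_sum hterm (mem_range.2 hk)
          rw [ind_true hk1, one_mul] at hs
          rw [hy]
          have := mul_nonneg hthr (add_nonneg (add_nonneg i1 i2) i3)
          linarith
      · have hH : B.Hit sg Lam N cl G q z l := ⟨y, hu, hy⟩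
        exact hone _ _ _ i1 i2 i3 (by rw [ind_true hH]; linarith)

end Pool.Agent.AM.C
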